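import Pool.Agent.H.MP_6c6968_al.B

set_option autoImplicit false

namespace Pool.Agent.H.MP_ed39a4_al

open Pool.Agent.H.MP_9b0338_al SimpleGraph
open Pool.Agent.H.MP_6c6968_al (dist_mul_le len_mul len_inv)

variable {G : Type} [Group G]

inductive W (S : Set G) : G → ℕ → Prop
  | one (n : ℕ) : W S 1 n
  | step {g s : G} {n : ℕ} : W S g n → (s ∈ S ∨ s⁻¹ ∈ S) → W S (g * s) (n + 1)

variable {S : Set G}

theorem W.succ {g : G} {n : ℕ} (h : W S g n) : W S g (n + 1) := by
  induction h with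
  | one n => exact W.one _
  | step _ hs ih => exact W.step ih hs

theorem W.mono {g : G} {n m : ℕ} (h : W S g n) (hm : n ≤ m) : W S g m := by
  induction hm with
  | refl => exact h
  | step _ ih => exact ih.succ

theorem W.mul {g h : G} {n m : ℕ} (h1 : W S g n) (h2 : W S h m) : W S (g * h) (n + m) := by
  induction h2 with
  | one m => rw [mul_one]; exact h1.mono (by omega)
  | step _ hs ih => rw [← mul_assoc, ← add_assoc]; exact W.step ih hs

theorem W.letter {s : G} (hs : s ∈ S ∨ s⁻¹ ∈ S) : W S s 1 := by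
  simpa using W.step (W.one 0) hs

theorem W.inv {g : G} {n : ℕ} (h : W S g n) : W S g⁻¹ n := by
  induction h with
  | one n => rw [inv_one]; exact W.one _
  | step _ hs ih =>
    rw [mul_inv_rev, add_comm]
    exact (W.letter (by rw [inv_inv]; exact hs.symm)).mul ih

theorem W.pow {g : G} {n : ℕ} (h : W S g n) (k : ℕ) : W S (g ^ k) (k * n) := by
  induction k with
  | zero => rw [pow_zero]; exact W.one _
  | succ k ih => rw [pow_succ, add_mul, one_mul]; exact ih.mul h

theorem W.zpow {g : G} {n : ℕ} (h : W S g n) (k : ℤ) (m : ℕ) (hk : k.natAbs ≤ m) :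
    W S (g ^ k) (m * n) := by
  rcases Int.eq_nat_or_neg k with ⟨j, rfl | rfl⟩
  · rw [zpow_natCast]; exact (h.pow j).mono (Nat.mul_le_mul_right _ (by omega))
  · rw [zpow_neg, zpow_natCast]; exact (h.pow j).inv.mono (Nat.mul_le_mul_right _ (by omega))

theorem W.trans {T : Set G} {m : ℕ} (hS : ∀ s ∈ S, W T s m) {g : G} {n : ℕ} (h : W S g n) :
    W T g (n * m) := by
  induction h with
  | one n => exact W.one _
  | step _ hs ih =>
    rw [add_mul, one_mul]
    rcases hs with hs | hs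
    · exact ih.mul (hS _ hs)
    · exact ih.mul (by simpa using (hS _ hs).inv)

theorem W.map {H : Type} [Group H] (ψ : G →* H) {g : G} {n : ℕ} (h : W S g n) :
    W (ψ '' S) (ψ g) n := by
  induction h with
  | one n => rw [map_one]; exact W.one _
  | step _ hs ih =>
    rw [map_mul]
    refine W.step ih ?_
    rcases hs with hs | hs
    · exact Or.inl ⟨_, hs, rfl⟩
    · exact Or.inr ⟨_, hs, map_inv _ _⟩

theorem W.lift {H : Type} [Group H] (ψ : G →* H) {g : H} {n : ℕ} (h : W (ψ '' S) g n) :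
    ∃ g', ψ g' = g ∧ W S g' n := by
  induction h with
  | one n => exact ⟨1, map_one _, W.one _⟩
  | step _ hs ih =>
    obtain ⟨g', rfl, h2⟩ := ih
    rcases hs with ⟨s', h3, rfl⟩ | ⟨s', h3, h4⟩
    · exact ⟨g' * s', map_mul _ _ _, W.step h2 (Or.inl h3)⟩
    · exact ⟨g' * s'⁻¹, by rw [map_mul, map_inv, h4, inv_inv], W.step h2 (Or.inr (by simpa))⟩

theorem W_of_closure {g : G} (hg : g ∈ Subgroup.closure S) : ∃ n, W S g n := by
  induction hg using Subgroup.closure_induction with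
  | mem s hs => exact ⟨1, W.letter (Or.inl hs)⟩
  | one => exact ⟨0, W.one _⟩
  | mul a b _ _ ha hb =>
    obtain ⟨n, h1⟩ := ha
    obtain ⟨m, h2⟩ := hb
    exact ⟨_, h1.mul h2⟩
  | inv a _ ha => obtain ⟨n, h1⟩ := ha; exact ⟨_, h1.inv⟩

theorem W_finite_bound {T : Set G} (hT : T.Finite) (h : ∀ g ∈ T, ∃ n, W S g n) :
    ∃ m, ∀ g ∈ T, W S g m := by
  choose! f hf using h
  obtain ⟨m, hm⟩ := (hT.image f).bddAbove
  exact ⟨m, fun g hg => (hf g hg).mono (hm ⟨g, hg, rfl⟩)⟩

theorem W.seq {g : G} {n : ℕ} (h : W S g n) : ∃ L ≤ n, ∃ f : ℕ → G, f 0 = 1 ∧ f L = g ∧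
    ∀ τ < L, ∃ s, (s ∈ S ∨ s⁻¹ ∈ S) ∧ f (τ + 1) = f τ * s := by
  induction h with
  | one n => exact ⟨0, by omega, fun _ => 1, rfl, rfl, by simp⟩
  | @step g s n _ hs ih =>
    obtain ⟨L, h1, f, h2, h3, h4⟩ := ih
    refine ⟨L + 1, by omega, fun τ => if τ ≤ L then f τ else g * s, by simpa using h2, by simp, ?_⟩
    intro τ hτ
    by_cases e : τ = L
    · exact ⟨s, hs, by simp [e, h3]⟩
    · obtain ⟨s', a1, a2⟩ := h4 τ (by omega)
      exact ⟨s', a1, by simp [show τ + 1 ≤ L by omega, show τ ≤ L by omega, a2]⟩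

theorem W_of_seq {L : ℕ} {f : ℕ → G}
    (h : ∀ τ < L, ∃ s, (s ∈ S ∨ s⁻¹ ∈ S) ∧ f (τ + 1) = f τ * s) (τ d : ℕ) (hd : τ + d ≤ L) :
    W S ((f τ)⁻¹ * f (τ + d)) d := by
  induction d with
  | zero => simpa using W.one 0
  | succ d ih =>
    obtain ⟨s, a1, a2⟩ := h (τ + d) (by omega)
    rw [← add_assoc, a2, ← mul_assoc]
    exact W.step (ih (by omega)) a1

theorem W_ball_finite (hS : S.Finite) (n : ℕ) : {g | W S g n}.Finite := by
  induction n with
  | zero =>
    refine (Set.finite_singleton 1).subset ?_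
    intro g hg
    cases hg
    rfl
  | succ n ih =>
    refine ((Set.finite_singleton 1).union ((ih.prod (hS.union hS.inv)).image
      (fun z : G × G => z.1 * z.2))).subset ?_
    intro g hg
    cases hg with
    | one => exact Or.inl rfl
    | step h hs => exact Or.inr ⟨(_, _), ⟨h, hs⟩, rfl⟩

noncomputable def wl (S : Set G) (g : G) : ℕ := sInf {n | W S g n}

theorem W.wl_le {g : G} {n : ℕ} (h : W S g n) : wl S g ≤ n := Nat.sInf_le h

theorem W.spec {g : G} {n : ℕ} (h : W S g n) : W S g (wl S g) :=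
  Nat.sInf_mem (s := {n | W S g n}) ⟨n, h⟩

def Pocket (S : Set G) (D ρ : ℕ) : Prop :=
  ∃ (B : Set G) (g : G), g ∈ B ∧ (∀ u ∈ B, W S u ρ) ∧
    ∀ u ∈ B, ∀ s, (s ∈ S ∨ s⁻¹ ∈ S) → u * s ∉ B → wl S u + D < wl S g

theorem letter_map {H : Type} [Group H] (ψ : G →* H) {s : G} (hs : s ∈ S ∨ s⁻¹ ∈ S) :
    ψ s ∈ ψ '' S ∨ (ψ s)⁻¹ ∈ ψ '' S := by
  rcases hs with hs | hs
  · exact Or.inl ⟨_, hs, rfl⟩
  · exact Or.inr ⟨_, hs, map_inv _ _⟩

theorem Pocket.of_ker {H : Type} [Group H] (ψ : G →* H) {D C ρ : ℕ}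
    (hk : ∀ z, ψ z = 1 → W S z C) (h : Pocket (ψ '' S) (D + C) ρ) : Pocket S D (ρ + C) := by
  obtain ⟨B, g, h1, h2, h3⟩ := h
  have key : ∀ u n, W (ψ '' S) (ψ u) n → W S u (n + C) := by
    intro u n hu
    obtain ⟨u', a1, a2⟩ := hu.lift ψ
    have := a2.mul (hk (u'⁻¹ * u) (by simp [a1]))
    simpa using this
  obtain ⟨g', rfl, b2⟩ := (h2 g h1).lift ψ
  refine ⟨ψ ⁻¹' B, g', h1, fun u hu => key u _ (h2 _ hu), ?_⟩
  intro u hu s hs hus
  have c1 := h3 _ hu _ (letter_map ψ hs) (by rwa [← map_mul])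
  have c2 := (key u _ (h2 _ hu).spec).wl_le
  have c3 := (b2.spec.map ψ).wl_le
  omega

theorem Pocket.of_inj {H : Type} [Group H] (ψ : G →* H) {D ρ : ℕ}
    (hi : ∀ z, W S z (2 * ρ + 2) → ψ z = 1 → z = 1) (h : Pocket (ψ '' S) D ρ) : Pocket S D ρ := by
  obtain ⟨B, g, h1, h2, h3⟩ := h
  have key : ∀ u n, n ≤ ρ + 1 → W S u (ρ + 1) → W (ψ '' S) (ψ u) n → W S u n := by
    intro u n hn h0 hu
    obtain ⟨u', a1, a2⟩ := hu.lift ψ
    have := hi (u'⁻¹ * u) ((a2.inv.mul h0).mono (by omega)) (by simp [a1])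
    rwa [← inv_mul_eq_one.1 this]
  obtain ⟨g', rfl, b2⟩ := (h2 g h1).lift ψ
  refine ⟨{u | ψ u ∈ B ∧ W S u ρ}, g', ⟨h1, b2⟩, fun u hu => hu.2, ?_⟩
  rintro u ⟨u1, u2⟩ s hs hus
  have c0 : ψ u * ψ s ∉ B := by
    intro hh
    rw [← map_mul] at hh
    exact hus ⟨hh, key _ ρ (by omega) (W.step u2 hs) (h2 _ hh)⟩
  have c1 := h3 _ u1 _ (letter_map ψ hs) c0
  have c4 := (h2 _ u1).wl_le
  have c2 := (key u _ (by omega) u2.succ (h2 _ u1).spec).wl_le
  have c3 := (b2.spec.map ψ).wl_le
  omega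

theorem wl_eq_len (S : Finset G) (hS : Subgroup.closure (S : Set G) = ⊤) (g : G) :
    wl (S : Set G) g = len S g := by
  have ex : ∀ g : G, W (S : Set G) g (wl (S : Set G) g) := by
    intro g
    obtain ⟨n, hn⟩ := W_of_closure (S := (S : Set G)) (g := g) (by rw [hS]; trivial)
    exact hn.spec
  apply le_antisymm
  · have := le_len S hS (wl (S : Set G)) (by
      intro u v h
      have h2 := ((adj_iff S u v).1 h).2
      have := W.step (ex u) (s := u⁻¹ * v) (by simpa using h2)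
      simpa using this.wl_le) g
    have h0 := (W.one (S := (S : Set G)) 0).wl_le
    omega
  · have key : ∀ g n, W (S : Set G) g n → len S g ≤ n := by
      intro g n h
      induction h with
      | one n => rw [len_one]; omega
      | @step g s n _ hs ih =>
        have := len_step S hS (u := g) (v := g * s) (by simpa using hs)
        omega
    exact key _ _ (ex g)

theorem Pocket.dead (S : Finset G) (hS : Subgroup.closure (S : Set G) = ⊤) {D ρ : ℕ}
    (h : Pocket (S : Set G) D ρ) : ∃ g : G, (∀ v, (Cay S).Adj g v → len S v ≤ len S g) ∧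
      {v | ∃ p : (Cay S).Walk g v, ∀ u ∈ p.support, len S g ≤ len S u + D}.Finite := by
  obtain ⟨B, g0, h1, h2, h3⟩ := h
  have fin : B.Finite := (W_ball_finite S.finite_toSet ρ).subset h2
  obtain ⟨g, hg, hmax⟩ := Set.exists_max_image _ (len S) fin ⟨_, h1⟩
  have l0 := hmax _ h1
  have ex : ∀ u ∈ B, ∀ v, (Cay S).Adj u v → v ∉ B → len S u + D < len S g := by
    intro u hu v h hv
    have := h3 u hu (u⁻¹ * v) (by simpa using ((adj_iff S u v).1 h).2) (by simpa using hv)
    rw [wl_eq_len S hS, wl_eq_len S hS] at this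
    omega
  refine ⟨g, ?_, fin.subset ?_⟩
  · intro v h
    by_cases hv : v ∈ B
    · exact hmax v hv
    · have := ex g hg v h hv
      omega
  · rintro v ⟨p, hp⟩
    by_contra hv
    obtain ⟨d, hd, d1, d2⟩ := p.exists_boundary_dart _ hg hv
    have := hp d.fst (Walk.dart_fst_mem_support_of_mem_darts p hd)
    have := ex _ d1 _ d.adj d2
    omega

theorem adj_mul (S : Finset G) (g : G) {u v : G} (h : (Cay S).Adj u v) :
    (Cay S).Adj (g * u) (g * v) := by
  obtain ⟨h1, h2⟩ := (adj_iff S u v).1 h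
  refine (adj_iff _ _ _).2 ⟨by simpa using h1, ?_⟩
  simpa [mul_assoc] using h2

theorem one_ended [Infinite G] (S : Finset G) (hS : Subgroup.closure (S : Set G) = ⊤)
    (h : ∀ D, ∃ g : G,
      {v | ∃ p : (Cay S).Walk g v, ∀ u ∈ p.support, len S g ≤ len S u + D}.Finite)
    (K : Finset G) : ∃! C : (Cay S).ComponentCompl (K : Set G), C.supp.Infinite := by
  have cn := conn S hS
  apply existsUnique_of_exists_of_unique
  · have : LocallyFinite (Cay S) := fun g => Set.Finite.fintype (by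
      refine ((S.finite_toSet.union S.finite_toSet.inv).image (fun s => g * s)).subset ?_
      intro v hv
      exact ⟨g⁻¹ * v, by simpa using ((adj_iff S g v).1 hv).2, by simp⟩)
    have : Fact (Cay S).Preconnected := ⟨cn.preconnected⟩
    by_contra hc
    push Not at hc
    apply K.finite_toSet.infinite_compl
    refine (Set.finite_iUnion hc).subset ?_
    intro v hv
    exact Set.mem_iUnion.2 ⟨_, componentComplMk_mem _ hv⟩
  · intro C1 C2 i1 i2
    by_contra hne
    obtain ⟨ρ, hρ⟩ := (K.finite_toSet.image (len S)).bddAbove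
    obtain ⟨g, hg⟩ := h ρ
    obtain ⟨C, hC, gC⟩ : ∃ C : (Cay S).ComponentCompl (K : Set G), C.supp.Infinite ∧ g⁻¹ ∉ C := by
      by_cases e : g⁻¹ ∈ C1
      · exact ⟨C2, i2, fun e2 => hne (e.choose_spec.symm.trans e2.choose_spec)⟩
      · exact ⟨C1, i1, e⟩
    have bd : ∀ y ∈ C, ∃ a ∈ K, ∃ b ∈ C, (Cay S).Adj a b ∧ len S (g * a) ≤ len S (g * y) := by
      intro y hy
      obtain ⟨p, hp⟩ := cn.exists_walk_length_eq_dist g⁻¹ y
      obtain ⟨d, hd, d1, d2⟩ := p.exists_boundary_dart ((C : Set G)ᶜ) gC (by simpa using hy)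
      have d2' : d.snd ∈ C := by simpa using d2
      refine ⟨d.fst, ?_, d.snd, d2', d.adj, ?_⟩
      · by_contra hk
        exact d1 (ComponentCompl.mem_of_adj _ _ d2' hk d.adj.symm)
      · classical
        have m := Walk.dart_fst_mem_support_of_mem_darts p hd
        have a1 := SimpleGraph.dist_le (p.takeUntil _ m)
        have a2 := p.length_takeUntil_le_length m
        have a3 := dist_mul_le S hS g g⁻¹ d.fst
        have a4 := dist_mul_le S hS g⁻¹ 1 (g * y)
        simp only [mul_inv_cancel, mul_one, inv_mul_cancel_left] at a3 a4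
        unfold len
        omega
    have low : ∀ y ∈ C, len S g ≤ len S (g * y) + ρ := by
      intro y hy
      obtain ⟨a, ha, -, -, -, h1⟩ := bd y hy
      have h2 := len_mul S hS (g * a) a⁻¹
      have h3 := len_inv S hS a
      have h4 : len S a ≤ ρ := hρ ⟨a, ha, rfl⟩
      rw [mul_inv_cancel_right] at h2
      omega
    obtain ⟨y0, hy0⟩ := hC.nonempty
    obtain ⟨a, ha, b, hb, hab, -⟩ := bd y0 hy0
    let Z := {v | ∃ p : (Cay S).Walk g v, ∀ u ∈ p.support, len S g ≤ len S u + ρ}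
    have ext : ∀ u ∈ Z, ∀ v, (Cay S).Adj u v → len S g ≤ len S v + ρ → v ∈ Z := by
      rintro u ⟨p, hp⟩ v huv hv
      refine ⟨p.concat huv, ?_⟩
      intro w hw
      rw [Walk.support_concat, List.mem_append, List.mem_singleton] at hw
      rcases hw with hw | rfl
      · exact hp w hw
      · exact hv
    have z1 : ∀ n, n ≤ ρ → ∀ w, len S w ≤ n → g * w ∈ Z := by
      intro n
      induction n with
      | zero =>
        intro _ w hw
        have e1 : (1 : G) = w := (cn.dist_eq_zero_iff).1 (by unfold len at hw; omega)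
        rw [← e1, mul_one]
        exact ⟨Walk.nil, by simp⟩
      | succ n ih =>
        intro hn w hw
        obtain ⟨w', a1, a2⟩ := exists_pred S hS n w hw
        have a3 := ih (by omega) w' a1
        by_cases e : w' = w
        · rwa [← e]
        · refine ext _ a3 _ (adj_mul S g ((adj_iff S _ _).2 ⟨e, ?_⟩)) ?_
          · rcases a2 with a2 | a2 | a2
            · exact absurd (inv_mul_eq_one.1 a2) e
            · exact Or.inl a2
            · exact Or.inr (by simpa using a2)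
          · have h2 := len_mul S hS (g * w) w⁻¹
            have h3 := len_inv S hS w
            rw [mul_inv_cancel_right] at h2
            omega
    have z2 : g * b ∈ Z := ext _ (z1 ρ le_rfl a (hρ ⟨a, ha, rfl⟩)) _ (adj_mul S g hab) (low b hb)
    have z3 : ∀ (u v : ((K : Set G)ᶜ : Set G)) (p : ((Cay S).induce (K : Set G)ᶜ).Walk u v),
        u.1 ∈ C → g * u.1 ∈ Z → g * v.1 ∈ Z := by
      intro u v p
      induction p with
      | nil => exact fun _ h => h
      | @cons u w v huw p ih =>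
        intro hu hz
        have hw : w.1 ∈ C := ComponentCompl.mem_of_adj _ _ hu w.2 huw
        exact ih hw (ext _ hz _ (adj_mul S g huw) (low _ hw))
    apply hC
    refine Set.Finite.of_finite_image (f := fun y => g * y) (hg.subset ?_)
      (mul_right_injective g).injOn
    rintro _ ⟨y, ⟨hy, e⟩, rfl⟩
    obtain ⟨hb', e'⟩ := hb
    obtain ⟨p⟩ := ConnectedComponent.eq.1 (e'.trans e.symm)
    exact z3 _ _ p ⟨hb', e'⟩ z2

end Pool.Agent.H.MP_ed39a4_al
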