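import Pool.Agent.H.MP_ed39a4_al.A

set_option autoImplicit false

namespace Pool.Agent.H.MP_ed39a4_al

section
variable {G : Type} [Group G]

def cj (t x : G) (i : ℤ) : G := t ^ i * x * t ^ (-i)

def gens (t a b : G) (u v : ℤ) : Set G := {x | ∃ i, u ≤ i ∧ i ≤ v ∧ (x = cj t a i ∨ x = cj t b i)}

def NJ (t a b : G) (u v : ℤ) : Subgroup G := Subgroup.closure (gens t a b u v)

variable {t a b : G}

theorem NJ_mono {u v u' v' : ℤ} (h1 : u' ≤ u) (h2 : v ≤ v') : NJ t a b u v ≤ NJ t a b u' v' := by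
  apply Subgroup.closure_mono
  rintro x ⟨i, a1, a2, a3⟩
  exact ⟨i, by omega, by omega, a3⟩

theorem cj_add (t x : G) (c i : ℤ) : cj t (cj t x i) c = cj t x (i + c) := by
  unfold cj; group

theorem NJ_conj {u v : ℤ} {x : G} (hx : x ∈ NJ t a b u v) (c : ℤ) :
    cj t x c ∈ NJ t a b (u + c) (v + c) := by
  induction hx using Subgroup.closure_induction with
  | mem x hx =>
    obtain ⟨i, a1, a2, a3⟩ := hx
    refine Subgroup.subset_closure ⟨i + c, by omega, by omega, ?_⟩
    rcases a3 with rfl | rfl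
    · exact Or.inl (cj_add _ _ _ _)
    · exact Or.inr (cj_add _ _ _ _)
  | one => rw [show cj t 1 c = 1 by unfold cj; group]; exact one_mem _
  | mul x y _ _ h1 h2 =>
    rw [show cj t (x * y) c = cj t x c * cj t y c by unfold cj; group]; exact mul_mem h1 h2
  | inv x _ h1 => rw [show cj t x⁻¹ c = (cj t x c)⁻¹ by unfold cj; group]; exact inv_mem h1

theorem W_decomp {v : G} {m : ℕ} (h : W ({t, a, b} : Set G) v m) :
    ∃ d : ℤ, d.natAbs ≤ m ∧ v * t ^ (-d) ∈ NJ t a b (-m) m := by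
  induction h with
  | one n => exact ⟨0, by simp, by simp⟩
  | @step g s n _ hs ih =>
    obtain ⟨d, h1, h2⟩ := ih
    have h3 : g * t ^ (-d) ∈ NJ t a b (-(n + 1 : ℕ)) (n + 1 : ℕ) :=
      NJ_mono (by omega) (by omega) h2
    have ha : cj t a d ∈ NJ t a b (-(n + 1 : ℕ)) (n + 1 : ℕ) :=
      Subgroup.subset_closure ⟨d, by omega, by omega, Or.inl rfl⟩
    have hb : cj t b d ∈ NJ t a b (-(n + 1 : ℕ)) (n + 1 : ℕ) :=
      Subgroup.subset_closure ⟨d, by omega, by omega, Or.inr rfl⟩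
    simp only [Set.mem_insert_iff, Set.mem_singleton_iff, inv_eq_iff_eq_inv] at hs
    rcases hs with (rfl | rfl | rfl) | (rfl | rfl | rfl)
    · exact ⟨d + 1, by omega, by convert h3 using 1; group⟩
    · exact ⟨d, by omega, by convert mul_mem h3 ha using 1; unfold cj; group⟩
    · exact ⟨d, by omega, by convert mul_mem h3 hb using 1; unfold cj; group⟩
    · exact ⟨d - 1, by omega, by convert h3 using 1; group⟩
    · exact ⟨d, by omega, by convert mul_mem h3 (inv_mem ha) using 1; unfold cj; group⟩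
    · exact ⟨d, by omega, by convert mul_mem h3 (inv_mem hb) using 1; unfold cj; group⟩

theorem closure_commute {U V : Set G} (h : ∀ x ∈ U, ∀ y ∈ V, Commute x y) {x y : G}
    (hx : x ∈ Subgroup.closure U) (hy : y ∈ Subgroup.closure V) : Commute x y := by
  induction hx using Subgroup.closure_induction with
  | mem x hx =>
    induction hy using Subgroup.closure_induction with
    | mem s hs => exact h x hx s hs
    | one => simp
    | mul a b _ _ ha hb => exact ha.mul_right hb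
    | inv a _ ha => exact ha.inv_right
  | one => simp
  | mul a b _ _ ha hb => exact ha.mul_left hb
  | inv a _ ha => exact ha.inv_left

theorem closure_sq {U : Set G} (h : ∀ x ∈ U, ∀ y ∈ U, Commute x y) (h2 : ∀ x ∈ U, x * x = 1)
    {x : G} (hx : x ∈ Subgroup.closure U) : x * x = 1 := by
  induction hx using Subgroup.closure_induction with
  | mem x hx => exact h2 x hx
  | one => simp
  | mul a b a1 b1 ha hb =>
    rw [mul_assoc, ← mul_assoc b, ← (closure_commute h a1 b1).eq, mul_assoc, hb, mul_one, ha]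
  | inv a _ ha => rw [← mul_inv_rev, ha, inv_one]

theorem closure_W {S : Set G} {c : ℕ} (V : Finset G) (h : ∀ x ∈ V, ∀ y ∈ V, Commute x y)
    (h2 : ∀ x ∈ V, x * x = 1) (h3 : ∀ x ∈ V, W S x c) :
    ∀ x ∈ Subgroup.closure (V : Set G), W S x (V.card * c) := by
  classical
  induction V using Finset.induction_on with
  | empty =>
    intro x hx
    rw [Finset.coe_empty, Subgroup.closure_empty, Subgroup.mem_bot] at hx
    rw [hx]; exact W.one _
  | insert y V hy ih =>
    intro x hx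
    have ih' := ih (fun x hx y hy => h x (by simp [hx]) y (by simp [hy]))
      (fun x hx => h2 x (by simp [hx])) (fun x hx => h3 x (by simp [hx]))
    rw [Finset.card_insert_of_notMem hy, add_mul, one_mul]
    rw [Finset.coe_insert] at hx
    rcases Pool.Agent.H.MP_9b0338_al.mem_closure_insert _ y (h2 y (by simp))
      (fun z hz => h y (by simp) z (by simp [Finset.mem_coe.1 hz])) x hx with h4 | ⟨β, h4, rfl⟩
    · exact (ih' x h4).mono (by omega)
    · exact (ih' β h4).mul (h3 y (by simp))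

theorem NJ_W {S : Set G} {C : ℕ} (ht : W S t C) (ha : W S a C) (hb : W S b C) (r : ℕ)
    (h : ∀ x ∈ gens t a b (-r) r, ∀ y ∈ gens t a b (-r) r, Commute x y)
    (h2 : ∀ x ∈ gens t a b (-r) r, x * x = 1) {x : G} (hx : x ∈ NJ t a b (-r) r) :
    W S x ((2 * (2 * r + 1)) * ((2 * r + 1) * C)) := by
  classical
  let V : Finset G := (Finset.Icc (-(r : ℤ)) r).image (cj t a) ∪ (Finset.Icc (-(r : ℤ)) r).image (cj t b)
  have e : (V : Set G) = gens t a b (-r) r := by
    ext y
    simp only [V, Finset.coe_union, Finset.coe_image, Set.mem_union, Set.mem_image, Finset.mem_coe,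
      Finset.mem_Icc, gens, Set.mem_ofPred_eq]
    constructor
    · rintro (⟨i, h1, rfl⟩ | ⟨i, h1, rfl⟩)
      · exact ⟨i, h1.1, h1.2, Or.inl rfl⟩
      · exact ⟨i, h1.1, h1.2, Or.inr rfl⟩
    · rintro ⟨i, h1, h2, rfl | rfl⟩
      · exact Or.inl ⟨i, ⟨h1, h2⟩, rfl⟩
      · exact Or.inr ⟨i, ⟨h1, h2⟩, rfl⟩
  have m : ∀ y, y ∈ V ↔ y ∈ gens t a b (-r) r := by intro y; rw [← e]; rfl
  have c : V.card ≤ 2 * (2 * r + 1) := by
    have h1 := Finset.card_union_le ((Finset.Icc (-(r : ℤ)) r).image (cj t a))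
      ((Finset.Icc (-(r : ℤ)) r).image (cj t b))
    have h2 := Finset.card_image_le (s := Finset.Icc (-(r : ℤ)) r) (f := cj t a)
    have h3 := Finset.card_image_le (s := Finset.Icc (-(r : ℤ)) r) (f := cj t b)
    rw [Int.card_Icc] at h2 h3
    simp only [V]
    omega
  refine (closure_W (c := (2 * r + 1) * C) V (fun x hx y hy => h x ((m x).1 hx) y ((m y).1 hy))
    (fun x hx => h2 x ((m x).1 hx)) ?_ x (by rw [e]; exact hx)).mono (Nat.mul_le_mul_right _ c)
  intro y hy
  obtain ⟨i, h1, h2, rfl | rfl⟩ := (m y).1 hy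
  · exact (((ht.zpow i r (by omega)).mul ha).mul (ht.zpow (-i) r (by omega))).mono (by nlinarith)
  · exact (((ht.zpow i r (by omega)).mul hb).mul (ht.zpow (-i) r (by omega))).mono (by nlinarith)

end

@[ext]
structure Wr (X Γ : Type) where
  h : X → Γ
  c : ℤ

section
variable {X Γ : Type} [Ring X] [Group Γ]

instance : Mul (Wr X Γ) := ⟨fun u v => ⟨fun y => u.h y * v.h (y - u.c), u.c + v.c⟩⟩
instance : One (Wr X Γ) := ⟨⟨fun _ => 1, 0⟩⟩
instance : Inv (Wr X Γ) := ⟨fun u => ⟨fun y => (u.h (y + u.c))⁻¹, -u.c⟩⟩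

@[simp] theorem mul_h (u v : Wr X Γ) (y : X) : (u * v).h y = u.h y * v.h (y - u.c) := rfl
@[simp] theorem mul_c (u v : Wr X Γ) : (u * v).c = u.c + v.c := rfl
omit [Ring X] in
@[simp] theorem one_h (y : X) : (1 : Wr X Γ).h y = 1 := rfl
omit [Ring X] in
@[simp] theorem one_c : (1 : Wr X Γ).c = 0 := rfl
@[simp] theorem inv_h (u : Wr X Γ) (y : X) : (u⁻¹).h y = (u.h (y + u.c))⁻¹ := rfl
@[simp] theorem inv_c (u : Wr X Γ) : (u⁻¹).c = -u.c := rfl

instance : Group (Wr X Γ) := Group.ofLeftAxioms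
  (by
    intro u v w
    ext y
    · simp [mul_assoc, sub_sub]
    · simp [add_assoc])
  (by intro u; ext <;> simp)
  (by intro u; ext <;> simp)

def T (X Γ : Type) [Group Γ] : Wr X Γ := ⟨fun _ => 1, 1⟩

theorem T_zpow (i : ℤ) : T X Γ ^ i = ⟨fun _ => 1, i⟩ := by
  induction i using Int.induction_on with
  | zero => rfl
  | succ n ih => rw [zpow_add_one, ih]; ext <;> simp [T]
  | pred n ih => rw [zpow_sub_one, ih]; ext <;> simp [T, sub_eq_add_neg]

open Classical in
noncomputable def dl (y : X) (γ : Γ) : Wr X Γ := ⟨fun z => if z = y then γ else 1, 0⟩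

omit [Ring X] in
@[simp] theorem dl_c (y : X) (γ : Γ) : (dl y γ).c = 0 := rfl
omit [Ring X] in
@[simp] theorem dl_eq (y : X) (γ : Γ) : (dl y γ).h y = γ := if_pos rfl
omit [Ring X] in
theorem dl_ne {y z : X} (γ : Γ) (h : z ≠ y) : (dl y γ).h z = 1 := if_neg h

theorem cj_dl (y : X) (γ : Γ) (i : ℤ) : cj (T X Γ) (dl y γ) i = dl (y + i) γ := by
  unfold cj
  rw [T_zpow, T_zpow]
  ext z
  · simp only [mul_h, one_mul, mul_one]
    by_cases e : z = y + i
    · rw [e, add_sub_cancel_right, dl_eq, dl_eq]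
    · rw [dl_ne _ e, dl_ne _ (by rwa [Ne, sub_eq_iff_eq_add])]
  · simp

theorem dl_commute {y z : X} {γ δ : Γ} (h : y ≠ z ∨ Commute γ δ) : Commute (dl y γ) (dl z δ) := by
  unfold Commute SemiconjBy
  ext w
  · simp only [mul_h, dl_c, Int.cast_zero, sub_zero]
    by_cases h1 : w = y
    · by_cases h2 : w = z
      · rcases h with h | h
        · exact absurd (h1.symm.trans h2) h
        · subst h1; subst h2; simpa using h.eq
      · simp [dl_ne _ h2]
    · simp [dl_ne _ h1]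
  · simp

theorem dl_mul (y : X) (γ δ : Γ) : dl y γ * dl y δ = dl y (γ * δ) := by
  ext w
  · simp only [mul_h, dl_c, Int.cast_zero, sub_zero]
    by_cases h1 : w = y
    · simp [h1]
    · simp [dl_ne _ h1]
  · simp

omit [Ring X] in
theorem dl_one (y : X) : dl y (1 : Γ) = 1 := by
  ext w <;> simp [dl]

theorem dl_pow (y : X) (γ : Γ) (n : ℕ) : dl y γ ^ n = dl y (γ ^ n) := by
  induction n with
  | zero => simp [dl_one]
  | succ n ih => rw [pow_succ, ih, dl_mul, pow_succ]

def e2 (γ : Γ) (hγ : γ * γ = 1) : Multiplicative (ZMod 2) →* Γ :=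
  MonoidHom.mk' (fun x => if x = 1 then 1 else γ) (by
    intro x y
    have : ∀ x : Multiplicative (ZMod 2), x = 1 ∨ x = Multiplicative.ofAdd 1 := by decide
    have h1 : (Multiplicative.ofAdd (1 : ZMod 2)) ≠ 1 := by decide
    have h2 : (Multiplicative.ofAdd (1 : ZMod 2)) * Multiplicative.ofAdd 1 = 1 := by decide
    rcases this x with rfl | rfl <;> rcases this y with rfl | rfl <;> simp [h1, h2, hγ])

theorem e2_cases (γ : Γ) (hγ : γ * γ = 1) (x : Multiplicative (ZMod 2)) :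
    e2 γ hγ x = 1 ∨ e2 γ hγ x = γ := by
  change (if x = 1 then 1 else γ) = 1 ∨ (if x = 1 then 1 else γ) = γ
  split_ifs <;> simp

theorem e2_gen (γ : Γ) (hγ : γ * γ = 1) : e2 γ hγ (Multiplicative.ofAdd 1) = γ := by
  change (if Multiplicative.ofAdd (1 : ZMod 2) = 1 then 1 else γ) = γ
  rw [if_neg (by decide)]

end

abbrev A2 : Type := Multiplicative (ZMod 2) × Multiplicative (ZMod 2)
abbrev Lam : Type := Wr ℤ A2
abbrev E (P n : ℕ) : Type := Lam × Wr (ZMod P) (DihedralGroup n)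

def a0 : A2 := (Multiplicative.ofAdd 1, 1)
def b0 : A2 := (1, Multiplicative.ofAdd 1)
def al (n : ℕ) : DihedralGroup n := DihedralGroup.sr 0
def be (n : ℕ) : DihedralGroup n := DihedralGroup.sr 1

theorem al_sq (n : ℕ) : al n * al n = 1 := DihedralGroup.sr_mul_self _
theorem be_sq (n : ℕ) : be n * be n = 1 := DihedralGroup.sr_mul_self _

def tE (P n : ℕ) : E P n := (T _ _, T _ _)
noncomputable def aE (P n : ℕ) : E P n := (dl 0 a0, dl 0 (al n))
noncomputable def bE (P n : ℕ) (k : ℤ) : E P n := (dl 0 b0, dl (k : ZMod P) (be n))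

variable {P n : ℕ} {k : ℤ}

theorem cj_prod {G H : Type} [Group G] [Group H] (t x : G) (t' x' : H) (i : ℤ) :
    cj (t, t') (x, x') i = (cj t x i, cj t' x' i) := rfl

theorem cj_a (i : ℤ) : cj (tE P n) (aE P n) i = (dl i a0, dl (i : ZMod P) (al n)) := by
  rw [tE, aE, cj_prod, cj_dl, cj_dl]; simp

theorem cj_b (i : ℤ) : cj (tE P n) (bE P n k) i = (dl i b0, dl ((k + i : ℤ) : ZMod P) (be n)) := by
  rw [tE, bE, cj_prod, cj_dl, cj_dl]; simp

theorem tE_zpow (i : ℤ) : tE P n ^ i = (⟨fun _ => 1, i⟩, ⟨fun _ => 1, i⟩) := by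
  rw [tE, Prod.pow_mk, T_zpow, T_zpow]

theorem cast_inj {i j : ℤ} (h : (i : ZMod P) = j) (hP : (i - j).natAbs < P) : i = j := by
  rw [ZMod.intCast_eq_intCast_iff_dvd_sub] at h
  have := Int.eq_zero_of_dvd_of_natAbs_lt_natAbs h (by omega)
  omega

theorem comm_aa (i j : ℤ) : Commute (cj (tE P n) (aE P n) i) (cj (tE P n) (aE P n) j) := by
  rw [cj_a, cj_a]
  exact Commute.prod (dl_commute (Or.inr (Commute.refl _))) (dl_commute (Or.inr (Commute.refl _)))

theorem comm_bb (i j : ℤ) : Commute (cj (tE P n) (bE P n k) i) (cj (tE P n) (bE P n k) j) := by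
  rw [cj_b, cj_b]
  exact Commute.prod (dl_commute (Or.inr (Commute.refl _))) (dl_commute (Or.inr (Commute.refl _)))

theorem comm_ab (i j : ℤ) (h1 : i ≠ k + j) (h2 : (i - (k + j)).natAbs < P) :
    Commute (cj (tE P n) (aE P n) i) (cj (tE P n) (bE P n k) j) := by
  rw [cj_a, cj_b]
  exact Commute.prod (dl_commute (Or.inr (Commute.all _ _)))
    (dl_commute (Or.inl (fun h => h1 (cast_inj h h2))))

theorem gens_comm {u v u' v' : ℤ} (h1 : v - u' < k) (h2 : v' - u < k) (h3 : k + v' - u < P)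
    (h4 : k + v - u' < P) : ∀ x ∈ gens (tE P n) (aE P n) (bE P n k) u v,
      ∀ y ∈ gens (tE P n) (aE P n) (bE P n k) u' v', Commute x y := by
  rintro x ⟨i, a1, a2, rfl | rfl⟩ y ⟨j, b1, b2, rfl | rfl⟩
  · exact comm_aa _ _
  · exact comm_ab _ _ (by omega) (by omega)
  · exact (comm_ab _ _ (by omega) (by omega)).symm
  · exact comm_bb _ _

theorem gens_sq {u v : ℤ} : ∀ x ∈ gens (tE P n) (aE P n) (bE P n k) u v, x * x = 1 := by
  rintro x ⟨i, -, -, rfl | rfl⟩
  · rw [cj_a, Prod.mk_mul_mk, dl_mul, dl_mul, al_sq, show a0 * a0 = 1 by decide, dl_one, dl_one]; rfl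
  · rw [cj_b, Prod.mk_mul_mk, dl_mul, dl_mul, be_sq, show b0 * b0 = 1 by decide, dl_one, dl_one]; rfl

structure Rel (k u v : ℤ) (x : E P n) : Prop where
  c1 : x.1.c = 0
  c2 : x.2.c = 0
  out : ∀ i, ¬ (u ≤ i ∧ i ≤ v) → x.1.h i = 1
  ha : ∀ i, u ≤ i → i ≤ v → x.2.h (i : ZMod P) = e2 (al n) (al_sq n) (x.1.h i).1
  hb : ∀ i, u ≤ i → i ≤ v → x.2.h ((k + i : ℤ) : ZMod P) = e2 (be n) (be_sq n) (x.1.h i).2
  oth : ∀ y : ZMod P, (∀ i, u ≤ i → i ≤ v → y ≠ i ∧ y ≠ ((k + i : ℤ) : ZMod P)) → x.2.h y = 1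

theorem rel_of_NJ {u v : ℤ} (h1 : v - u < k) (h2 : k + v - u < P) {x : E P n}
    (hx : x ∈ NJ (tE P n) (aE P n) (bE P n k) u v) : Rel k u v x := by
  induction hx using Subgroup.closure_induction with
  | mem x hx =>
    obtain ⟨i, a1, a2, rfl | rfl⟩ := hx
    · rw [cj_a]
      refine ⟨rfl, rfl, ?_, ?_, ?_, ?_⟩
      · intro j hj
        exact if_neg (by rintro rfl; exact hj ⟨a1, a2⟩)
      · intro j b1 b2
        by_cases e : j = i
        · subst e; simp [dl, a0, e2_gen]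
        · have : (j : ZMod P) ≠ i := fun h => e (cast_inj h (by omega))
          simp [dl, e, this]
      · intro j b1 b2
        have : ((k + j : ℤ) : ZMod P) ≠ i := fun h => by have := cast_inj h (by omega); omega
        simp only [dl, if_neg this]
        split_ifs <;> simp [a0]
      · intro y hy
        exact if_neg (hy i a1 a2).1
    · rw [cj_b]
      refine ⟨rfl, rfl, ?_, ?_, ?_, ?_⟩
      · intro j hj
        exact if_neg (by rintro rfl; exact hj ⟨a1, a2⟩)
      · intro j b1 b2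
        have : (j : ZMod P) ≠ ((k + i : ℤ) : ZMod P) := fun h => by
          have := cast_inj h (by omega); omega
        simp only [dl, if_neg this]
        split_ifs <;> simp [b0]
      · intro j b1 b2
        by_cases e : j = i
        · subst e; simp [dl, b0, e2_gen]
        · have : ((k + j : ℤ) : ZMod P) ≠ ((k + i : ℤ) : ZMod P) := fun h => by
            have := cast_inj h (by omega); omega
          simp only [dl, if_neg this, if_neg e]
          simp
      · intro y hy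
        exact if_neg (hy i a1 a2).2
  | one => exact ⟨rfl, rfl, by simp, by simp, by simp, by simp⟩
  | mul x y _ _ hx hy =>
    refine ⟨by simp [hx.c1, hy.c1], by simp [hx.c2, hy.c2], ?_, ?_, ?_, ?_⟩
    · intro i hi; simp [hx.c1, hx.out i hi, hy.out i hi]
    · intro i b1 b2; simp [hx.c1, hx.c2, hx.ha i b1 b2, hy.ha i b1 b2]
    · intro i b1 b2; simp [-Int.cast_add, hx.c1, hx.c2, hx.hb i b1 b2, hy.hb i b1 b2]
    · intro z hz; simp [hx.c2, hx.oth z hz, hy.oth z hz]
  | inv x _ hx =>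
    refine ⟨by simp [hx.c1], by simp [hx.c2], ?_, ?_, ?_, ?_⟩
    · intro i hi; simp [hx.c1, hx.out i hi]
    · intro i b1 b2; simp [hx.c1, hx.c2, hx.ha i b1 b2]
    · intro i b1 b2; simp [-Int.cast_add, hx.c1, hx.c2, hx.hb i b1 b2]
    · intro z hz; simp [hx.c2, hx.oth z hz]

theorem Rel.eq {u v : ℤ} {x y : E P n} (hx : Rel k u v x) (hy : Rel k u v y)
    (h : ∀ i, u ≤ i → i ≤ v → x.1.h i = y.1.h i) : x = y := by
  ext z
  · by_cases e : u ≤ z ∧ z ≤ v
    · rw [h z e.1 e.2]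
    · rw [hx.out z e, hy.out z e]
  · by_cases e : u ≤ z ∧ z ≤ v
    · rw [h z e.1 e.2]
    · rw [hx.out z e, hy.out z e]
  · rw [hx.c1, hy.c1]
  · by_cases e : ∀ i, u ≤ i → i ≤ v → z ≠ i ∧ z ≠ ((k + i : ℤ) : ZMod P)
    · rw [hx.oth z e, hy.oth z e]
    · push Not at e
      obtain ⟨i, b1, b2, b3⟩ := e
      by_cases e2 : z = i
      · rw [e2, hx.ha i b1 b2, hy.ha i b1 b2, h i b1 b2]
      · rw [b3 e2, hx.hb i b1 b2, hy.hb i b1 b2, h i b1 b2]
  · rw [hx.c2, hy.c2]

theorem NJ_c {u v : ℤ} {x : E P n} (hx : x ∈ NJ (tE P n) (aE P n) (bE P n k) u v) :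
    x.1.c = 0 ∧ x.2.c = 0 := by
  induction hx using Subgroup.closure_induction with
  | mem x hx =>
    obtain ⟨i, -, -, rfl | rfl⟩ := hx
    · rw [cj_a]; exact ⟨rfl, rfl⟩
    · rw [cj_b]; exact ⟨rfl, rfl⟩
  | one => exact ⟨rfl, rfl⟩
  | mul x y _ _ hx hy => simp [hx.1, hx.2, hy.1, hy.2]
  | inv x _ hx => simp [hx.1, hx.2]

theorem short_trivial {m : ℕ} (h1 : 2 * m < k) (h2 : k + 2 * m < P) {x : E P n}
    (hx : W ({tE P n, aE P n, bE P n k} : Set (E P n)) x m) (h : x.1 = 1) : x = 1 := by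
  obtain ⟨d, a1, a2⟩ := W_decomp hx
  have a3 := (NJ_c a2).1
  rw [tE_zpow] at a3
  simp only [Prod.fst_mul, mul_c, h, one_c] at a3
  obtain rfl : d = 0 := by omega
  simp only [neg_zero, zpow_zero, mul_one] at a2
  exact (rel_of_NJ (by omega) (by omega) a2).eq (rel_of_NJ (by omega) (by omega) (one_mem _))
    (by intro i _ _; rw [h]; rfl)

noncomputable def xE (P l : ℕ) (p : ℤ) : E P (2 * l) :=
  (cj (tE P (2 * l)) (aE P (2 * l)) p * cj (tE P (2 * l)) (bE P (2 * l) (2 * p)) (-p)) ^ l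

theorem xE_snd (l : ℕ) (p : ℤ) : (xE P l p).2 = dl (p : ZMod P) (DihedralGroup.r (l : ZMod (2 * l))) := by
  rw [xE, cj_a, cj_b, Prod.mk_mul_mk, Prod.pow_mk, show 2 * p + -p = p by ring, dl_mul, dl_pow]
  simp [al, be]

theorem xE_comm (l : ℕ) (p u v : ℤ) {y : E P (2 * l)}
    (hy : y ∈ NJ (tE P (2 * l)) (aE P (2 * l)) (bE P (2 * l) (2 * p)) u v) :
    Commute (xE P l p) y := by
  have cen : ∀ γ : DihedralGroup (2 * l), Commute (DihedralGroup.r (l : ZMod (2 * l))) γ := by
    intro γ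
    have e : (l : ZMod (2 * l)) + l = 0 := by
      rw [← Nat.cast_add, ← two_mul]; exact ZMod.natCast_self _
    cases γ with
    | r i => unfold Commute SemiconjBy; simp [add_comm]
    | sr i =>
      unfold Commute SemiconjBy
      simp only [DihedralGroup.r_mul_sr, DihedralGroup.sr_mul_r]
      congr 1
      linear_combination -e
  refine closure_commute (U := {xE P l p}) ?_ (Subgroup.subset_closure rfl) hy
  rintro _ rfl z ⟨i, -, -, rfl | rfl⟩
  · refine Commute.prod ?_ ?_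
    · rw [xE, cj_a, cj_b, cj_a]
      exact ((dl_commute (Or.inr (Commute.all _ _))).mul_left
        (dl_commute (Or.inr (Commute.all _ _)))).pow_left l
    · rw [xE_snd, cj_a]; exact dl_commute (Or.inr (cen _))
  · refine Commute.prod ?_ ?_
    · rw [xE, cj_a, cj_b, cj_b]
      exact ((dl_commute (Or.inr (Commute.all _ _))).mul_left
        (dl_commute (Or.inr (Commute.all _ _)))).pow_left l
    · rw [xE_snd, cj_b]; exact dl_commute (Or.inr (cen _))

end Pool.Agent.H.MP_ed39a4_al
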