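import Mathlib

set_option autoImplicit false

namespace Pool.Agent.H.MP_ed39a4_al

theorem exists_seq (P : ℕ → ℤ → Prop) (R : ℕ → ℤ → ℤ → Prop) (h0 : P 0 0)
    (step : ∀ τ x, P τ x → ∃ y, P (τ + 1) y ∧ R τ x y) :
    ∃ f : ℕ → ℤ, f 0 = 0 ∧ ∀ τ, P τ (f τ) ∧ R τ (f τ) (f (τ + 1)) := by
  choose! F hF using step
  let f : ℕ → ℤ := fun n => Nat.rec 0 (fun τ x => F τ x) n
  have h : ∀ τ, P τ (f τ) := by
    intro τ
    induction τ with
    | zero => exact h0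
    | succ τ ih => exact (hF τ _ ih).1
  exact ⟨f, rfl, fun τ => ⟨h τ, (hF τ _ (h τ)).2⟩⟩

def clamp (h : ℕ) (c : ℤ) : ℤ := max (-(h : ℤ)) (min c h)

theorem lipK (f : ℕ → ℤ) (K L : ℕ) (h : ∀ τ < L, (f (τ + 1) - f τ).natAbs ≤ K) (u d : ℕ)
    (hd : u + d ≤ L) : (f (u + d) - f u).natAbs ≤ K * d := by
  induction d with
  | zero => simp
  | succ d ih =>
    have h1 := ih (by omega)
    have h2 := h (u + d) (by omega)
    rw [← add_assoc, mul_add]
    omega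

theorem one_pass (f : ℕ → ℤ) (K L r : ℕ) (f0 : f 0 = 0)
    (h : ∀ τ < L, (f (τ + 1) - f τ).natAbs ≤ K) (A : ℤ) (hA : 0 ≤ A) (hL : A + r ≤ f L) :
    ∃ τ1 τ2 : ℕ, τ1 ≤ τ2 ∧ τ2 ≤ L ∧ r ≤ K * (τ2 - τ1) ∧ f τ1 ≤ A ∧ A + r ≤ f τ2 ∧
      (∀ σ, τ1 ≤ σ → σ ≤ τ2 → A - K ≤ f σ ∧ f σ ≤ A + r + K) ∧
      (∀ σ, A + r ≤ f σ → τ2 ≤ σ) ∧ (∀ σ, σ ≤ τ2 → f σ ≤ A → σ ≤ τ1) := by
  classical
  have ex : ∃ τ, A + r ≤ f τ := ⟨L, hL⟩
  have a1 := Nat.find_spec ex
  have a2 : ∀ σ, A + r ≤ f σ → Nat.find ex ≤ σ := fun σ hσ => Nat.find_min' ex hσ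
  generalize Nat.find ex = τ2 at *
  have a3 := a2 L hL
  have b1 : Nat.findGreatest (fun τ => f τ ≤ A) τ2 ≤ τ2 := Nat.findGreatest_le _
  have b2 : f (Nat.findGreatest (fun τ => f τ ≤ A) τ2) ≤ A :=
    Nat.findGreatest_spec (P := fun τ => f τ ≤ A) (Nat.zero_le τ2) (by simpa [f0] using hA)
  have b3 : ∀ σ, σ ≤ τ2 → f σ ≤ A → σ ≤ Nat.findGreatest (fun τ => f τ ≤ A) τ2 :=
    fun σ h1 h2 => Nat.le_findGreatest h1 h2
  generalize Nat.findGreatest (fun τ => f τ ≤ A) τ2 = τ1 at *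
  refine ⟨τ1, τ2, b1, a3, ?_, b2, a1, ?_, a2, b3⟩
  · have := lipK f K L h τ1 (τ2 - τ1) (by omega)
    rw [show τ1 + (τ2 - τ1) = τ2 by omega] at this
    omega
  · intro σ h1 h2
    constructor
    · rcases eq_or_lt_of_le h1 with rfl | e
      · rcases eq_or_lt_of_le h2 with rfl | e2
        · omega
        · have := h τ1 (by omega)
          have := b3 (τ1 + 1) (by omega)
          omega
      · have := b3 σ h2
        omega
    · rcases eq_or_lt_of_le h2 with rfl | e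
      · rcases Nat.eq_zero_or_pos σ with rfl | e2
        · omega
        · obtain ⟨σ', rfl⟩ : ∃ σ', σ = σ' + 1 := ⟨σ - 1, by omega⟩
          have := h σ' (by omega)
          have := a2 σ'
          omega
      · have := a2 σ
        omega

theorem locate (h : ℕ) (i j o ε c Θ : ℤ) (hε : ε = 1 ∨ ε = -1)
    (h1 : Θ = 4 * i * h + o - ε * clamp h c ∨ Θ = 4 * i * h + o + 2 * h + ε * clamp h c)
    (h2 : (Θ - (4 * j * h + o)).natAbs < h) : c = ε * (4 * j * h + o - Θ) := by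
  have k1 : i < j → i * h + h ≤ j * h := fun e => by nlinarith [(Int.natCast_nonneg h)]
  have k2 : j < i → j * h + h ≤ i * h := fun e => by nlinarith [(Int.natCast_nonneg h)]
  have k3 : i = j → i * h = j * h := fun e => by rw [e]
  rw [mul_assoc 4 i, mul_assoc 4 j] at *
  generalize i * h = x at *
  generalize j * h = y at *
  unfold clamp at h1
  rcases hε with rfl | rfl <;> omega

theorem passes (c Θ : ℕ → ℤ) (K h l L r Z : ℕ) (ε : ℤ) (hε : ε = 1 ∨ ε = -1) (c0 : c 0 = 0)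
    (step : ∀ τ < L, (c (τ + 1) - c τ).natAbs ≤ K) (t0 : Θ 0 = 0)
    (t1 : ∀ τ < L, (Θ (τ + 1) - Θ τ).natAbs = (clamp h (c (τ + 1)) - clamp h (c τ)).natAbs)
    (t2 : ∀ τ ≤ L, ∃ i : ℤ, Θ τ = 4 * i * h + clamp h (c τ) ∨
      Θ τ = (4 * i + 2) * h - clamp h (c τ))
    (t3 : 4 * l * h ≤ (Θ L).natAbs) (hL : K * L ≤ 4 * l * h + Z) (hr : r + K < h) :
    (∀ τ ≤ L, (c τ).natAbs ≤ h + Z) ∧ ∃ τ1 τ2 : ℕ → ℕ, ∀ j, 1 ≤ j → j < l →
      τ1 j ≤ τ2 j ∧ τ2 j ≤ L ∧ r ≤ K * (τ2 j - τ1 j) ∧ (ε * r - c (τ1 j)).natAbs ≤ K ∧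
      (c (τ2 j)).natAbs ≤ K ∧ (∀ σ, τ1 j ≤ σ → σ ≤ τ2 j → (c σ).natAbs ≤ r + K) ∧
      ∀ j', j < j' → j' < l → τ2 j ≤ τ1 j' := by
  have t4 : ∀ τ < L, (Θ (τ + 1) - Θ τ).natAbs ≤ K := by
    intro τ hτ
    have := step τ hτ
    rw [t1 τ hτ]
    unfold clamp
    omega
  constructor
  · intro σ hσ
    have a1 : ∀ τ ≤ L, (Θ τ).natAbs + (c τ - clamp h (c τ)).natAbs ≤ K * τ := by
      intro τ
      induction τ with
      | zero => intro _; simp [t0, c0, clamp]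
      | succ τ ih =>
        intro hτ
        have := ih (by omega)
        have := step τ (by omega)
        have := t1 τ (by omega)
        rw [mul_add]
        unfold clamp at *
        omega
    have a2 := lipK Θ K L t4 σ (L - σ) (by omega)
    rw [show σ + (L - σ) = L by omega] at a2
    have a3 := a1 σ hσ
    have a4 : K * σ + K * (L - σ) = K * L := by rw [← mul_add]; congr 1; omega
    unfold clamp at a3
    omega
  · obtain ⟨s, o, hs, ho, hL2, loc⟩ : ∃ s o : ℤ, (s = 1 ∨ s = -1) ∧ (o = 0 ∨ o = 2 * h) ∧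
        ((4 * l * h : ℕ) : ℤ) ≤ s * Θ L ∧ ∀ τ ≤ L, ∃ i : ℤ,
          s * Θ τ = 4 * i * h + o - ε * clamp h (c τ) ∨
            s * Θ τ = 4 * i * h + o + 2 * h + ε * clamp h (c τ) := by
      rcases le_total 0 (Θ L) with e | e <;> rcases hε with rfl | rfl
      · refine ⟨1, 2 * h, Or.inl rfl, Or.inr rfl, by omega, fun τ hτ => ?_⟩
        obtain ⟨i, e | e⟩ := t2 τ hτ
        · exact ⟨i - 1, Or.inr (by rw [e]; ring)⟩
        · exact ⟨i, Or.inl (by rw [e]; ring)⟩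
      · refine ⟨1, 0, Or.inl rfl, Or.inl rfl, by omega, fun τ hτ => ?_⟩
        obtain ⟨i, e | e⟩ := t2 τ hτ
        · exact ⟨i, Or.inl (by rw [e]; ring)⟩
        · exact ⟨i, Or.inr (by rw [e]; ring)⟩
      · refine ⟨-1, 0, Or.inr rfl, Or.inl rfl, by omega, fun τ hτ => ?_⟩
        obtain ⟨i, e | e⟩ := t2 τ hτ
        · exact ⟨-i, Or.inl (by rw [e]; ring)⟩
        · exact ⟨-i - 1, Or.inr (by rw [e]; ring)⟩
      · refine ⟨-1, 2 * h, Or.inr rfl, Or.inr rfl, by omega, fun τ hτ => ?_⟩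
        obtain ⟨i, e | e⟩ := t2 τ hτ
        · exact ⟨-i - 1, Or.inr (by rw [e]; ring)⟩
        · exact ⟨-i - 1, Or.inl (by rw [e]; ring)⟩
    have t5 : ∀ τ < L, (s * Θ (τ + 1) - s * Θ τ).natAbs ≤ K := by
      intro τ hτ
      have := t4 τ hτ
      rcases hs with rfl | rfl <;> omega
    have key : ∀ j : ℕ, 1 ≤ j → j < l → _ := fun j j1 j2 =>
      one_pass (fun τ => s * Θ τ) K L r (by simp [t0]) t5 (4 * (j : ℤ) * h + o - r)
        (by have : (h : ℤ) ≤ j * h := by nlinarith [(Int.natCast_nonneg h)]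
            rw [mul_assoc]; omega)
        (by have : (j : ℤ) * h + h ≤ l * h := by nlinarith [(Int.natCast_nonneg h)]
            push_cast at hL2
            rw [mul_assoc] at hL2 ⊢; omega)
    choose! τ1 τ2 hτ using key
    refine ⟨τ1, τ2, fun j j1 j2 => ?_⟩
    obtain ⟨a1, a2, a3, a4, a5, a6, a7, a8⟩ := hτ j j1 j2
    have lc : ∀ σ, τ1 j ≤ σ → σ ≤ τ2 j → c σ = ε * (4 * j * h + o - s * Θ σ) := by
      intro σ h1 h2
      obtain ⟨i, hi⟩ := loc σ (by omega)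
      have := a6 σ h1 h2
      exact locate h i j o ε _ _ hε hi (by omega)
    refine ⟨a1, a2, a3, ?_, ?_, ?_, ?_⟩
    · have := lc _ le_rfl a1
      have := a6 _ le_rfl a1
      rcases hε with rfl | rfl <;> omega
    · have := lc _ a1 le_rfl
      have := a6 _ a1 le_rfl
      rcases hε with rfl | rfl <;> omega
    · intro σ h1 h2
      have := lc _ h1 h2
      have := a6 _ h1 h2
      rcases hε with rfl | rfl <;> omega
    · intro j' k1 k2
      obtain ⟨b1, b2, b3, b4, b5, b6, b7, b8⟩ := hτ j' (by omega) k2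
      have e : (j : ℤ) * h + h ≤ j' * h := by
        have : (j : ℤ) + 1 ≤ j' := by exact_mod_cast k1
        nlinarith [(Int.natCast_nonneg h)]
      have := (a6 _ a1 le_rfl).2
      rw [mul_assoc] at *
      exact b8 _ (a7 _ (by omega)) (by omega)

end Pool.Agent.H.MP_ed39a4_al
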