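import Pool.Agent.H.MP_ed39a4_al.B
import Pool.Agent.H.MP_ed39a4_al.C

set_option autoImplicit false

namespace Pool.Agent.H.MP_ed39a4_al

open DihedralGroup

variable {P n : ℕ} {k : ℤ}

def cur (x : E P n) : ℤ := x.1.c

theorem cur_mul (x y : E P n) : cur (x * y) = cur x + cur y := rfl
theorem cur_inv (x : E P n) : cur x⁻¹ = -cur x := rfl
theorem cur_one : cur (1 : E P n) = 0 := rfl
theorem cur_t (i : ℤ) : cur (tE P n ^ i) = i := by rw [tE_zpow]; rfl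
theorem cur_NJ {u v : ℤ} {x : E P n} (hx : x ∈ NJ (tE P n) (aE P n) (bE P n k) u v) : cur x = 0 :=
  (NJ_c hx).1

def nu (x : E P n) : E P n := x * tE P n ^ (-cur x)

theorem letter_nu {m : ℕ} {s : E P n} (h : W ({tE P n, aE P n, bE P n k} : Set (E P n)) s m) :
    nu s ∈ NJ (tE P n) (aE P n) (bE P n k) (-m) m := by
  obtain ⟨d, -, h2⟩ := W_decomp h
  have := cur_NJ h2
  rw [cur_mul, cur_t] at this
  rwa [nu, show cur s = d by omega]

theorem letter_cur {m : ℕ} {s : E P n} (h : W ({tE P n, aE P n, bE P n k} : Set (E P n)) s m) :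
    (cur s).natAbs ≤ m := by
  obtain ⟨d, h1, h2⟩ := W_decomp h
  have := cur_NJ h2
  rw [cur_mul, cur_t] at this
  omega

theorem nu_mul (x s : E P n) : nu (x * s) = nu x * cj (tE P n) (nu s) (cur x) := by
  unfold nu cj
  rw [cur_mul]; group

theorem seq_nu {m L : ℕ} {f : ℕ → E P n}
    (hf : ∀ τ < L, ∃ s, nu s ∈ NJ (tE P n) (aE P n) (bE P n k) (-m) m ∧ f (τ + 1) = f τ * s)
    (u v : ℤ) (τ d : ℕ) (hd : τ + d ≤ L)
    (hc : ∀ σ, τ ≤ σ → σ ≤ τ + d → u ≤ cur (f σ) ∧ cur (f σ) ≤ v) :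
    (nu (f τ))⁻¹ * nu (f (τ + d)) ∈ NJ (tE P n) (aE P n) (bE P n k) (u - m) (v + m) := by
  induction d with
  | zero => simp
  | succ d ih =>
    obtain ⟨s, a1, a2⟩ := hf (τ + d) (by omega)
    have a3 := hc (τ + d) (by omega) (by omega)
    rw [← add_assoc, a2, nu_mul, ← mul_assoc]
    exact mul_mem (ih (by omega) (fun σ h1 h2 => hc σ h1 (by omega)))
      (NJ_mono (by omega) (by omega) (NJ_conj a1 _))

theorem site_value {m p : ℕ} {c : ℤ} {x : E P n} (h1 : m < p)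
    (h2 : c.natAbs + 3 * p + 2 * m < P)
    (hx : x ∈ NJ (tE P n) (aE P n) (bE P n (2 * p)) (-m + c) (m + c)) :
    x.2.h ((p : ℤ) : ZMod P) = 1 ∨ (x.2.h ((p : ℤ) : ZMod P) = al n ∧ (p : ℤ) - m ≤ c) ∨
      (x.2.h ((p : ℤ) : ZMod P) = be n ∧ c ≤ -((p : ℤ) - m)) := by
  have R := rel_of_NJ (by omega) (by omega) hx
  by_cases e : ∀ i, -m + c ≤ i → i ≤ m + c →
      ((p : ℤ) : ZMod P) ≠ i ∧ ((p : ℤ) : ZMod P) ≠ ((2 * p + i : ℤ) : ZMod P)
  · exact Or.inl (R.oth _ e)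
  push Not at e
  obtain ⟨i, b1, b2, b3⟩ := e
  by_cases e2 : ((p : ℤ) : ZMod P) = i
  · have := cast_inj e2 (by omega)
    rw [e2, R.ha i b1 b2]
    rcases e2_cases (al n) (al_sq n) (x.1.h i).1 with h | h
    · exact Or.inl h
    · exact Or.inr (Or.inl ⟨h, by omega⟩)
  · have := cast_inj (b3 e2) (by omega)
    rw [b3 e2, R.hb i b1 b2]
    rcases e2_cases (be n) (be_sq n) (x.1.h i).2 with h | h
    · exact Or.inl h
    · exact Or.inr (Or.inr ⟨h, by omega⟩)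

def St (n h : ℕ) (γ : DihedralGroup n) (φ Θ : ℤ) : Prop :=
  ∃ i : ℤ, (γ = r (i : ZMod n) ∧ Θ = 4 * i * h + φ) ∨ (γ = sr (-(i : ZMod n)) ∧ Θ = (4 * i + 2) * h - φ)

theorem St.al {h : ℕ} {γ : DihedralGroup n} {Θ : ℤ} (H : St n h γ h Θ) : St n h (γ * al n) h Θ := by
  obtain ⟨i, ⟨rfl, e⟩ | ⟨rfl, e⟩⟩ := H
  · exact ⟨i, Or.inr ⟨by simp [MP_ed39a4_al.al], by rw [e]; ring⟩⟩
  · exact ⟨i, Or.inl ⟨by simp [MP_ed39a4_al.al], by rw [e]; ring⟩⟩

theorem St.be {h : ℕ} {γ : DihedralGroup n} {Θ : ℤ} (H : St n h γ (-h) Θ) :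
    St n h (γ * be n) (-h) Θ := by
  obtain ⟨i, ⟨rfl, e⟩ | ⟨rfl, e⟩⟩ := H
  · exact ⟨i - 1, Or.inr ⟨by simp [MP_ed39a4_al.be], by rw [e]; ring⟩⟩
  · exact ⟨i + 1, Or.inl ⟨by simp [MP_ed39a4_al.be, add_comm], by rw [e]; ring⟩⟩

theorem St.move {h : ℕ} {γ : DihedralGroup n} {φ Θ : ℤ} (H : St n h γ φ Θ) (φ' : ℤ) :
    ∃ Θ', St n h γ φ' Θ' ∧ (Θ' - Θ).natAbs = (φ' - φ).natAbs := by
  obtain ⟨i, ⟨rfl, e⟩ | ⟨rfl, e⟩⟩ := H
  · exact ⟨_, ⟨i, Or.inl ⟨rfl, rfl⟩⟩, by omega⟩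
  · exact ⟨_, ⟨i, Or.inr ⟨rfl, rfl⟩⟩, by omega⟩

theorem theta {m p l L : ℕ} {f : ℕ → E P (2 * l)} (f0 : f 0 = 1) (h1 : m < p)
    (hf : ∀ τ < L, ∃ s, nu s ∈ NJ (tE P (2 * l)) (aE P (2 * l)) (bE P (2 * l) (2 * p)) (-m) m ∧
      f (τ + 1) = f τ * s)
    (hc : ∀ τ ≤ L, (cur (f τ)).natAbs + 3 * p + 2 * m < P) (hL : cur (f L) = 0)
    (hg : (f L).2.h ((p : ℤ) : ZMod P) = r (l : ZMod (2 * l))) :
    ∃ Θ : ℕ → ℤ, Θ 0 = 0 ∧ (∀ τ < L, (Θ (τ + 1) - Θ τ).natAbs =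
        (clamp (p - m) (cur (f (τ + 1))) - clamp (p - m) (cur (f τ))).natAbs) ∧
      (∀ τ ≤ L, ∃ i : ℤ, Θ τ = 4 * i * (p - m : ℕ) + clamp (p - m) (cur (f τ)) ∨
        Θ τ = (4 * i + 2) * (p - m : ℕ) - clamp (p - m) (cur (f τ))) ∧
      4 * l * (p - m) ≤ (Θ L).natAbs := by
  obtain ⟨Θ, t0, t1⟩ := exists_seq
    (fun τ x => τ ≤ L → (nu (f τ)).2.c = 0 ∧
      St (2 * l) (p - m) ((nu (f τ)).2.h ((p : ℤ) : ZMod P)) (clamp (p - m) (cur (f τ))) x)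
    (fun τ x y => τ < L → (y - x).natAbs =
      (clamp (p - m) (cur (f (τ + 1))) - clamp (p - m) (cur (f τ))).natAbs)
    (by
      intro _
      rw [f0, show nu (1 : E P (2 * l)) = 1 by simp [nu, cur_one], cur_one]
      exact ⟨rfl, 0, Or.inl ⟨by simp, by simp [clamp]⟩⟩)
    (by
      intro τ x hx
      by_cases e : τ < L
      · obtain ⟨a1, a2⟩ := hx e.le
        obtain ⟨s, b1, b2⟩ := hf τ e
        have b3 := NJ_conj b1 (cur (f τ))
        have b4 := site_value h1 (hc τ e.le) b3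
        have b5 : St (2 * l) (p - m) ((nu (f (τ + 1))).2.h ((p : ℤ) : ZMod P))
            (clamp (p - m) (cur (f τ))) x := by
          rw [b2, nu_mul, Prod.snd_mul, mul_h, a1, Int.cast_zero, sub_zero]
          rcases b4 with b4 | ⟨b4, b6⟩ | ⟨b4, b6⟩ <;> rw [b4]
          · rwa [mul_one]
          · have : clamp (p - m) (cur (f τ)) = (p - m : ℕ) := by unfold clamp; omega
            rw [this] at a2 ⊢
            exact a2.al
          · have : clamp (p - m) (cur (f τ)) = -(p - m : ℕ) := by unfold clamp; omega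
            rw [this] at a2 ⊢
            exact a2.be
        obtain ⟨y, c1, c2⟩ := b5.move (clamp (p - m) (cur (f (τ + 1))))
        refine ⟨y, fun _ => ⟨?_, c1⟩, fun _ => c2⟩
        rw [b2, nu_mul, Prod.snd_mul, mul_c, a1, (NJ_c b3).2]; rfl
      · exact ⟨0, fun h => absurd h e, fun h => absurd h e⟩)
  refine ⟨Θ, t0, fun τ hτ => (t1 τ).2 hτ, fun τ hτ => ?_, ?_⟩
  · obtain ⟨i, ⟨-, e⟩ | ⟨-, e⟩⟩ := ((t1 τ).1 hτ).2
    · exact ⟨i, Or.inl e⟩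
    · exact ⟨i, Or.inr e⟩
  · have := ((t1 L).1 le_rfl).2
    rw [show nu (f L) = f L by simp [nu, hL], hg, hL] at this
    obtain ⟨i, ⟨e1, e⟩ | ⟨e1, e⟩⟩ := this
    · have e2 : ((l : ℤ) : ZMod (2 * l)) = i := by simpa using e1
      rw [ZMod.intCast_eq_intCast_iff_dvd_sub] at e2
      have e3 : l ≤ i.natAbs := by
        by_contra hh
        have := Int.eq_zero_of_dvd_of_natAbs_lt_natAbs e2 (by omega)
        omega
      rw [e, show clamp (p - m) 0 = 0 by unfold clamp; omega, add_zero, Int.natAbs_mul,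
        Int.natAbs_mul, Int.natAbs_natCast]
      exact Nat.mul_le_mul_right _ (Nat.mul_le_mul_left _ e3)
    · cases e1

theorem exists_fast {S : Set (E P n)} (hS : S.Finite) {C : ℕ} (ht : W S (tE P n) C) :
    ∃ s0, (s0 ∈ S ∨ s0⁻¹ ∈ S) ∧ 1 ≤ cur s0 ∧
      ∀ s, (s ∈ S ∨ s⁻¹ ∈ S) → ((cur s).natAbs : ℤ) ≤ cur s0 := by
  have ex : ∃ s, (s ∈ S ∨ s⁻¹ ∈ S) ∧ 1 ≤ cur s := by
    by_contra hc
    push Not at hc
    have : ∀ g n', W S g n' → cur g ≤ 0 := by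
      intro g n' h
      induction h with
      | one => exact le_rfl
      | step _ hs ih => have := hc _ hs; rw [cur_mul]; omega
    have h1 := this _ _ ht
    have h2 := cur_t (P := P) (n := n) 1
    rw [zpow_one] at h2
    omega
  obtain ⟨s1, a1, a2⟩ := ex
  obtain ⟨s0, b1, b2⟩ := Set.exists_max_image (S ∪ S⁻¹) cur (hS.union hS.inv) ⟨s1, a1⟩
  refine ⟨s0, b1, a2.trans (b2 s1 a1), fun s hs => ?_⟩
  have c1 := b2 s hs
  have c2 := b2 s⁻¹ (by simpa using hs.symm)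
  rw [cur_inv] at c2
  omega

theorem cur_pow (s : E P n) (j : ℕ) : cur (s ^ j) = j * cur s := by
  induction j with
  | zero => simp [cur_one]
  | succ j ih => rw [pow_succ, cur_mul, ih]; push_cast; ring

theorem W_far {S : Set (E P n)} {m j c : ℕ} {s y : E P n} (hs : s ∈ S ∨ s⁻¹ ∈ S)
    (hn : nu s ∈ NJ (tE P n) (aE P n) (bE P n k) (-m) m) (u v : ℤ)
    (hc : ∀ σ : ℕ, σ ≤ j → u ≤ σ * cur s ∧ σ * cur s ≤ v) (hy : W S y c)
    (hcomm : ∀ z ∈ NJ (tE P n) (aE P n) (bE P n k) (u - m) (v + m),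
      Commute (cj (tE P n) y (j * cur s)) z) :
    W S (cj (tE P n) y (j * cur s)) (2 * j + c) := by
  have a1 := seq_nu (L := j) (f := fun τ => s ^ τ) (fun τ _ => ⟨s, hn, pow_succ _ _⟩) u v 0 j
    (by omega) (fun σ _ h => by rw [cur_pow]; exact hc σ (by omega))
  simp only [pow_zero, zero_add] at a1
  rw [show nu (1 : E P n) = 1 by simp [nu, cur_one], inv_one, one_mul] at a1
  have a2 := (hcomm _ a1).eq
  have a3 : cj (tE P n) y (j * cur s) = s ^ j * y * (s ^ j)⁻¹ := by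
    have : s ^ j * y * (s ^ j)⁻¹ = nu (s ^ j) * cj (tE P n) y (j * cur s) * (nu (s ^ j))⁻¹ := by
      rw [nu, cj, cur_pow]; group
    rw [this, ← a2]; group
  rw [a3]
  have a4 := (W.letter hs).pow j
  exact ((a4.mul hy).mul a4.inv).mono (by omega)

theorem W_x {l m p C : ℕ} {S : Set (E P (2 * l))} {s0 : E P (2 * l)} (hs : s0 ∈ S ∨ s0⁻¹ ∈ S)
    (hm : W ({tE P (2 * l), aE P (2 * l), bE P (2 * l) (2 * p)} : Set (E P (2 * l))) s0 m)
    (K : ℕ) (hK : cur s0 = K) (K1 : 1 ≤ K) (ht : W S (tE P (2 * l)) C) (ha : W S (aE P (2 * l)) C)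
    (hb : W S (bE P (2 * l) (2 * p)) C) (h1 : m < p) (h2 : 4 * p + 2 * m < P) :
    W S (xE P l p) (l * (4 * (p / K) + 2 * ((2 * m + 1) * C))) := by
  have Km := letter_cur hm
  have e := Nat.mod_add_div p K
  have e1 : p % K < K := Nat.mod_lt _ K1
  have e2 : ((p % K : ℕ) : ℤ) + (p / K : ℕ) * K = p := by
    rw [mul_comm]; exact_mod_cast e
  have e3 : ∀ σ : ℕ, σ ≤ p / K → (0 : ℤ) ≤ σ * K ∧ (σ : ℤ) * K ≤ (p / K : ℕ) * K := by
    intro σ hσ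
    exact ⟨by positivity, mul_le_mul_of_nonneg_right (by exact_mod_cast hσ) (by positivity)⟩
  have wa : W S (cj (tE P (2 * l)) (aE P (2 * l)) (p % K : ℕ)) ((2 * m + 1) * C) :=
    (((ht.zpow _ m (by omega)).mul ha).mul (ht.zpow _ m (by omega))).mono (by nlinarith)
  have wb : W S (cj (tE P (2 * l)) (bE P (2 * l) (2 * p)) (-(p % K : ℕ))) ((2 * m + 1) * C) :=
    (((ht.zpow _ m (by omega)).mul hb).mul (ht.zpow _ m (by omega))).mono (by nlinarith)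
  have a1 := W_far (j := p / K) hs (letter_nu hm) 0 p
    (fun σ hσ => by rw [hK]; have := e3 σ hσ; omega) wa (by
      intro z hz
      rw [cj_add, hK, e2]
      refine closure_commute (U := {cj (tE P (2 * l)) (aE P (2 * l)) p}) ?_
        (Subgroup.subset_closure rfl) hz
      rintro _ rfl _ ⟨i, b1, b2, rfl | rfl⟩
      · exact comm_aa _ _
      · exact comm_ab _ _ (by omega) (by omega))
  have a2 := W_far (j := p / K) (s := s0⁻¹) (by simpa using hs.symm) (letter_nu hm.inv) (-p) 0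
    (fun σ hσ => by rw [cur_inv, hK, mul_neg]; have := e3 σ hσ; omega) wb (by
      intro z hz
      rw [cj_add, cur_inv, hK, mul_neg, ← neg_add, e2]
      refine closure_commute (U := {cj (tE P (2 * l)) (bE P (2 * l) (2 * p)) (-p)}) ?_
        (Subgroup.subset_closure rfl) hz
      rintro _ rfl _ ⟨i, b1, b2, rfl | rfl⟩
      · exact (comm_ab _ _ (by omega) (by omega)).symm
      · exact comm_bb _ _)
  rw [cj_add, hK, e2] at a1
  rw [cj_add, cur_inv, hK, mul_neg, ← neg_add, e2] at a2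
  exact ((a1.mul a2).pow l).mono (Nat.mul_le_mul_left _ (by omega))

theorem exit_core {l m p C r r' CL Z K : ℕ} {S : Set (E P (2 * l))}
    (hm : ∀ s, (s ∈ S ∨ s⁻¹ ∈ S) →
      W ({tE P (2 * l), aE P (2 * l), bE P (2 * l) (2 * p)} : Set (E P (2 * l))) s m)
    (hK : ∀ s, (s ∈ S ∨ s⁻¹ ∈ S) → (cur s).natAbs ≤ K) (Km : K ≤ m)
    (ht : W S (tE P (2 * l)) C) (hr' : r' = r + 2 * m)
    (hl : Fintype.card (Finset.Icc (-(r' : ℤ)) r' → A2) + 2 ≤ l)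
    (hW : ∀ y ∈ NJ (tE P (2 * l)) (aE P (2 * l)) (bE P (2 * l) (2 * p)) (-r') r',
      W S (xE P l p * y) CL)
    (hZ : K * CL ≤ 4 * l * (p - m) + Z) (hp : Z + r' + m < p)
    (hP : 4 * l * (p - m) + Z + 4 * p + 2 * m < P) (ε : ℤ) (hε : ε = 1 ∨ ε = -1)
    (ν : E P (2 * l)) (hν : ν ∈ NJ (tE P (2 * l)) (aE P (2 * l)) (bE P (2 * l) (2 * p)) (-r') r') :
    ∃ β ∈ NJ (tE P (2 * l)) (aE P (2 * l)) (bE P (2 * l) (2 * p)) (-r') r', ∃ d c : ℕ,
      r ≤ K * d ∧ W S (xE P l p * ν * tE P (2 * l) ^ (ε * r)) c ∧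
        c + d ≤ wl S (xE P l p * (ν * β)) + 6 * (m * C) := by
  classical
  have ex : ∃ c, ∃ β ∈ NJ (tE P (2 * l)) (aE P (2 * l)) (bE P (2 * l) (2 * p)) (-r') r',
      W S (tE P (2 * l) ^ (-(ε * r)) * β) c :=
    ⟨_, 1, one_mem _, by rw [mul_one]; exact ht.zpow _ _ le_rfl⟩
  obtain ⟨β, hβ, w0⟩ := Nat.find_spec ex
  have w1 : ∀ c, ∀ β' ∈ NJ (tE P (2 * l)) (aE P (2 * l)) (bE P (2 * l) (2 * p)) (-r') r',
      W S (tE P (2 * l) ^ (-(ε * r)) * β') c → Nat.find ex ≤ c :=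
    fun c β' h1 h2 => Nat.find_min' ex ⟨β', h1, h2⟩
  generalize Nat.find ex = c0 at *
  refine ⟨β, hβ, ?_⟩
  have hνβ := mul_mem hν hβ
  have g1 := hW _ hνβ
  have g2 := g1.wl_le
  obtain ⟨L, hL, f, f0, fL, fs⟩ := g1.spec.seq
  have fs2 : ∀ τ < L, ∃ s, nu s ∈ NJ (tE P (2 * l)) (aE P (2 * l)) (bE P (2 * l) (2 * p)) (-m) m ∧
      f (τ + 1) = f τ * s := by
    intro τ hτ
    obtain ⟨s, a1, a2⟩ := fs τ hτ
    exact ⟨s, letter_nu (hm s a1), a2⟩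
  have st : ∀ τ < L, (cur (f (τ + 1)) - cur (f τ)).natAbs ≤ K := by
    intro τ hτ
    obtain ⟨s, a1, a2⟩ := fs τ hτ
    have := hK s a1
    rw [a2, cur_mul]; omega
  have KL : K * L ≤ 4 * l * (p - m) + Z := (Nat.mul_le_mul_left _ (by omega)).trans hZ
  have c0' : cur (f 0) = 0 := by rw [f0]; rfl
  have rg0 : ∀ τ ≤ L, (cur (f τ)).natAbs + 3 * p + 2 * m < P := by
    intro τ hτ
    have := lipK (fun τ => cur (f τ)) K L st 0 τ (by omega)
    have h2 : K * τ ≤ K * L := Nat.mul_le_mul_left _ hτ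
    simp only [zero_add, c0', sub_zero] at this
    omega
  have xN : xE P l p ∈ NJ (tE P (2 * l)) (aE P (2 * l)) (bE P (2 * l) (2 * p)) (-p) p := by
    refine pow_mem (mul_mem (Subgroup.subset_closure ?_) (Subgroup.subset_closure ?_)) _
    · exact ⟨p, by omega, le_rfl, Or.inl rfl⟩
    · exact ⟨-p, le_rfl, by omega, Or.inr rfl⟩
  have cL : cur (f L) = 0 := by rw [fL, cur_mul, cur_NJ xN, cur_NJ hνβ]; rfl
  have RR := rel_of_NJ (by omega) (by omega) hνβ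
  obtain ⟨Θ, t0, t1, t2, t3⟩ := theta f0 (by omega) fs2 rg0 cL (by
    rw [fL, Prod.snd_mul, mul_h, (NJ_c xN).2, xE_snd, dl_eq, Int.cast_zero, sub_zero, RR.oth,
      mul_one]
    intro i b1 b2
    exact ⟨fun h => by have := cast_inj h (by omega); omega,
      fun h => by have := cast_inj h (by omega); omega⟩)
  obtain ⟨rg, τ1, τ2, hτ⟩ := passes (fun τ => cur (f τ)) Θ K (p - m) l L r Z ε hε c0' st t0 t1 t2
    t3 KL (by omega)
  have far : ∀ τ τ', τ ≤ τ' → τ' ≤ L → (nu (f τ))⁻¹ * nu (f τ') ∈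
      NJ (tE P (2 * l)) (aE P (2 * l)) (bE P (2 * l) (2 * p)) (-(p + Z : ℕ)) (p + Z : ℕ) := by
    intro τ τ' h1 h2
    obtain ⟨d, rfl⟩ := Nat.exists_eq_add_of_le h1
    refine NJ_mono (by omega) (by omega) (seq_nu fs2 (-(p - m + Z : ℕ)) (p - m + Z : ℕ) τ d h2 ?_)
    intro σ a1 a2
    have := rg σ (by omega)
    omega
  have loc : ∀ j, 1 ≤ j → j < l → (nu (f (τ1 j)))⁻¹ * nu (f (τ2 j)) ∈
      NJ (tE P (2 * l)) (aE P (2 * l)) (bE P (2 * l) (2 * p)) (-r') r' := by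
    intro j j1 j2
    obtain ⟨a1, a2, -, -, -, a6, -⟩ := hτ j j1 j2
    obtain ⟨d, hd⟩ := Nat.exists_eq_add_of_le a1
    rw [hd]
    refine NJ_mono (by omega) (by omega) (seq_nu fs2 (-(r + K : ℕ)) (r + K : ℕ) _ d (by omega) ?_)
    intro σ b1 b2
    have := a6 σ b1 (by omega)
    omega
  have cm : ∀ y ∈ NJ (tE P (2 * l)) (aE P (2 * l)) (bE P (2 * l) (2 * p)) (-r') r',
      ∀ z ∈ NJ (tE P (2 * l)) (aE P (2 * l)) (bE P (2 * l) (2 * p)) (-(p + Z : ℕ)) (p + Z : ℕ),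
      Commute y z := fun y hy z hz =>
    closure_commute (gens_comm (by omega) (by omega) (by omega) (by omega)) hy hz
  have sq : ∀ y ∈ NJ (tE P (2 * l)) (aE P (2 * l)) (bE P (2 * l) (2 * p)) (-r') r', y * y = 1 :=
    fun y hy => closure_sq (gens_comm (by omega) (by omega) (by omega) (by omega)) gens_sq hy
  obtain ⟨j, j', j1, j2, j3, eq⟩ : ∃ j j', 1 ≤ j ∧ j < j' ∧ j' < l ∧
      (nu (f (τ1 j)))⁻¹ * nu (f (τ2 j)) = (nu (f (τ1 j')))⁻¹ * nu (f (τ2 j')) := by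
    obtain ⟨x, y, hxy, e⟩ := Fintype.exists_ne_map_eq_of_card_lt
      (fun (j : Fin (l - 1)) (i : Finset.Icc (-(r' : ℤ)) r') =>
        ((nu (f (τ1 (j + 1))))⁻¹ * nu (f (τ2 (j + 1)))).1.h i) (by rw [Fintype.card_fin]; omega)
    have e2 := (rel_of_NJ (by omega) (by omega) (loc (x + 1) (by omega) (by omega))).eq
      (rel_of_NJ (by omega) (by omega) (loc (y + 1) (by omega) (by omega)))
      (fun i b1 b2 => congrFun e ⟨i, Finset.mem_Icc.2 ⟨b1, b2⟩⟩)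
    rcases lt_or_gt_of_ne (Fin.val_ne_of_ne hxy) with h | h
    · exact ⟨x + 1, y + 1, by omega, by omega, by omega, e2⟩
    · exact ⟨y + 1, x + 1, by omega, by omega, by omega, e2.symm⟩
  obtain ⟨a1, a2, -, a4, a5, -, a7⟩ := hτ j j1 (by omega)
  obtain ⟨b1, b2, b3, b4, b5, -, -⟩ := hτ j' (by omega) j3
  have a8 := a7 j' j2 j3
  have lγ := loc j j1 (by omega)
  have n1 := far 0 (τ1 j) (by omega) (by omega)
  have n2 := far (τ2 j) (τ1 j') a8 (by omega)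
  have n3 := far (τ2 j') L b2 le_rfl
  rw [f0, show nu (1 : E P (2 * l)) = 1 by simp [nu, cur_one], inv_one, one_mul] at n1
  rw [show nu (f L) = f L by simp [nu, cL]] at n3
  have ws : ∀ τ τ', τ ≤ τ' → τ' ≤ L → W S ((f τ)⁻¹ * f τ') (τ' - τ) := by
    intro τ τ' h1 h2
    have := W_of_seq fs τ (τ' - τ) (by omega)
    rwa [show τ + (τ' - τ) = τ' by omega] at this
  have q0 := w1 _ _ lγ (by
    have := ((ht.zpow (cur (f (τ1 j)) - ε * r) m (by omega)).mul (ws _ _ a1 a2)).mul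
      (ht.zpow (-cur (f (τ2 j))) m (by omega))
    convert this using 1
    unfold nu; group)
  have q1 := ws 0 (τ1 j) (by omega) (by omega)
  rw [f0, inv_one, one_mul] at q1
  have V := (((((((ht.zpow (cur (f (τ2 j'))) m (by omega)).mul (ws _ _ b2 le_rfl)).mul q1).mul
    (ht.zpow (ε * r - cur (f (τ1 j))) m (by omega))).mul w0).mul
    (ht.zpow (cur (f (τ2 j))) m (by omega))).mul (ws _ _ a8 (by omega))).mul
    (ht.zpow (ε * r - cur (f (τ1 j'))) m (by omega))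
  refine ⟨τ2 j' - τ1 j', m * C + (L - τ2 j') + (τ1 j - 0) + m * C + c0 + m * C + (τ1 j' - τ2 j) +
    m * C, b3, ?_, ?_⟩
  · convert V using 1
    obtain ⟨N1, e1⟩ : ∃ N, N = nu (f (τ1 j)) := ⟨_, rfl⟩
    obtain ⟨γ, e2⟩ : ∃ N, N = (nu (f (τ1 j)))⁻¹ * nu (f (τ2 j)) := ⟨_, rfl⟩
    obtain ⟨N2, e3⟩ : ∃ N, N = (nu (f (τ2 j)))⁻¹ * nu (f (τ1 j')) := ⟨_, rfl⟩
    obtain ⟨N3, e4⟩ : ∃ N, N = (nu (f (τ2 j')))⁻¹ * f L := ⟨_, rfl⟩
    have k1 : f L = N1 * γ * N2 * γ * N3 := by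
      conv_rhs => rw [e1, e3, e4]
      nth_rewrite 2 [e2.trans eq]
      rw [e2]; group
    have k2 : tE P (2 * l) ^ cur (f (τ2 j')) * ((f (τ2 j'))⁻¹ * f L) * f (τ1 j) *
        tE P (2 * l) ^ (ε * r - cur (f (τ1 j))) * (tE P (2 * l) ^ (-(ε * r)) * β) *
        tE P (2 * l) ^ cur (f (τ2 j)) * ((f (τ2 j))⁻¹ * f (τ1 j')) *
        tE P (2 * l) ^ (ε * r - cur (f (τ1 j'))) = N3 * N1 * β * N2 * tE P (2 * l) ^ (ε * r) := by
      rw [e1, e3, e4]; unfold nu; group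
    rw [k2]
    rw [← e1] at n1
    rw [← e2] at lγ
    rw [← e3] at n2
    rw [← e4] at n3
    have k3 : f L = N1 * N2 * N3 := by
      rw [k1, mul_assoc N1, (cm γ lγ N2 n2).eq, mul_assoc N1, mul_assoc N2, sq γ lγ, mul_one]
    have k4 : Commute (f L) N3 := by
      rw [fL]; exact (xE_comm l p _ _ n3).mul_left (cm _ hνβ _ n3)
    have k5 : N3 * N1 * N2 = f L := by
      have : N3 * N1 * N2 = N3 * f L * N3⁻¹ := by rw [k3]; group
      rw [this, ← k4.eq]; group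
    rw [mul_assoc (N3 * N1), (cm β hβ N2 n2).eq, ← mul_assoc, k5, fL, mul_assoc (xE P l p) _ β,
      mul_assoc ν, sq β hβ, mul_one]
  · omega

theorem pocketE (m C D : ℕ) : ∃ l p0 : ℕ, 0 < l ∧ ∀ p ≥ p0, ∃ P0 : ℕ, ∀ P ≥ P0,
    ∀ S : Set (E P (2 * l)), S.Finite →
      (∀ s ∈ S, W ({tE P (2 * l), aE P (2 * l), bE P (2 * l) (2 * p)} : Set (E P (2 * l))) s m) →
      W S (tE P (2 * l)) C → W S (aE P (2 * l)) C → W S (bE P (2 * l) (2 * p)) C →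
      ∃ ρ, Pocket S D ρ := by
  obtain ⟨r, hr⟩ : ∃ r, r = m * (7 * (m * C) + D + 1) := ⟨_, rfl⟩
  obtain ⟨r', hr'⟩ : ∃ r', r' = r + 2 * m := ⟨_, rfl⟩
  obtain ⟨l, hl⟩ : ∃ l, l = Fintype.card (Finset.Icc (-(r' : ℤ)) r' → A2) + 2 := ⟨_, rfl⟩
  obtain ⟨CN, hCN⟩ : ∃ CN, CN = (2 * (2 * r' + 1)) * ((2 * r' + 1) * C) := ⟨_, rfl⟩
  obtain ⟨Z, hZ⟩ : ∃ Z, Z = 4 * l * m + m * (l * (2 * ((2 * m + 1) * C)) + CN) := ⟨_, rfl⟩
  refine ⟨l, Z + r' + m + 1, by omega, fun p hp =>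
    ⟨4 * l * (p - m) + Z + 4 * p + 2 * m + 1, fun P hP S hS hm ht ha hb => ?_⟩⟩
  have hm' : ∀ s, (s ∈ S ∨ s⁻¹ ∈ S) →
      W ({tE P (2 * l), aE P (2 * l), bE P (2 * l) (2 * p)} : Set (E P (2 * l))) s m := by
    rintro s (h | h)
    · exact hm s h
    · simpa using (hm _ h).inv
  obtain ⟨s0, a1, a2, a3⟩ := exists_fast hS ht
  obtain ⟨K, hK⟩ := Int.eq_ofNat_of_zero_le (show 0 ≤ cur s0 by omega)
  have Km : K ≤ m := by have := letter_cur (hm' s0 a1); omega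
  have hK' : ∀ s, (s ∈ S ∨ s⁻¹ ∈ S) → (cur s).natAbs ≤ K := fun s hs => by
    have := a3 s hs; omega
  have wx := W_x a1 (hm' s0 a1) K hK (by omega) ht ha hb (by omega) (by omega)
  have wn : ∀ y ∈ NJ (tE P (2 * l)) (aE P (2 * l)) (bE P (2 * l) (2 * p)) (-r') r', W S y CN := by
    intro y hy
    rw [hCN]
    exact NJ_W ht ha hb r' (gens_comm (by omega) (by omega) (by omega) (by omega)) gens_sq hy
  have hZ2 : K * (l * (4 * (p / K) + 2 * ((2 * m + 1) * C)) + CN) ≤ 4 * l * (p - m) + Z := by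
    have h1 : K * (p / K) ≤ p := Nat.mul_div_le p K
    have h2 : K * (l * (2 * ((2 * m + 1) * C)) + CN) ≤ m * (l * (2 * ((2 * m + 1) * C)) + CN) :=
      Nat.mul_le_mul_right _ Km
    have h3 : 4 * l * (K * (p / K)) ≤ 4 * l * p := Nat.mul_le_mul_left _ h1
    have h4 : 4 * l * (p - m) + 4 * l * m = 4 * l * p := by rw [← mul_add]; congr 1; omega
    have h5 : K * (l * (4 * (p / K) + 2 * ((2 * m + 1) * C)) + CN) =
        4 * l * (K * (p / K)) + K * (l * (2 * ((2 * m + 1) * C)) + CN) := by ring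
    omega
  let B : Set (E P (2 * l)) := {u | ∃ ν ∈ NJ (tE P (2 * l)) (aE P (2 * l)) (bE P (2 * l) (2 * p))
    (-r') r', ∃ c : ℤ, c.natAbs ≤ r ∧ u = xE P l p * ν * tE P (2 * l) ^ c}
  have wB : ∀ u ∈ B, W S u (l * (4 * (p / K) + 2 * ((2 * m + 1) * C)) + CN + r * C) := by
    rintro _ ⟨ν, h1, c, h2, rfl⟩
    exact (wx.mul (wn ν h1)).mul (ht.zpow c r h2)
  have fin : B.Finite := (W_ball_finite hS _).subset wB
  obtain ⟨g, hg, hmax⟩ := Set.exists_max_image _ (wl S) fin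
    ⟨_, 1, one_mem _, 0, by simp, rfl⟩
  refine ⟨_, B, g, hg, wB, ?_⟩
  rintro _ ⟨ν, h1, c, h2, rfl⟩ s hs hus
  have b1 := hK' s hs
  have big : r < (c + cur s).natAbs := by
    by_contra hh
    refine hus ⟨ν * cj (tE P (2 * l)) (nu s) c, mul_mem h1 (NJ_mono (by omega) (by omega)
      (NJ_conj (letter_nu (hm' s hs)) c)), c + cur s, by omega, ?_⟩
    unfold cj nu; group
  obtain ⟨ε, hε, e1⟩ : ∃ ε : ℤ, (ε = 1 ∨ ε = -1) ∧ (c - ε * r).natAbs ≤ m := by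
    rcases le_total 0 (c + cur s) with h | h
    · exact ⟨1, Or.inl rfl, by omega⟩
    · exact ⟨-1, Or.inr rfl, by omega⟩
  obtain ⟨β, hβ, d, c', d1, d2, d3⟩ := exit_core hm' hK' Km ht hr' hl.ge
    (fun y hy => wx.mul (wn y hy)) hZ2 (by omega) (by omega) ε hε ν h1
  have e2 := (d2.mul (ht.zpow (c - ε * r) m e1)).wl_le
  rw [show xE P l p * ν * tE P (2 * l) ^ (ε * r) * tE P (2 * l) ^ (c - ε * r) =
    xE P l p * ν * tE P (2 * l) ^ c by group] at e2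
  have e3 := hmax _ ⟨ν * β, mul_mem h1 hβ, 0, by simp, rfl⟩
  rw [zpow_zero, mul_one] at e3
  have e4 : 7 * (m * C) + D + 1 ≤ d := by
    have : m * (7 * (m * C) + D + 1) ≤ m * d := by
      rw [← hr]; exact d1.trans (Nat.mul_le_mul_right _ Km)
    exact Nat.le_of_mul_le_mul_left this (by omega)
  omega

end Pool.Agent.H.MP_ed39a4_al
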