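import Pool.Agent.H.MP_ed39a4_al.D

set_option autoImplicit false

namespace Pool.Agent.H.MP_ed39a4_al

abbrev F : Type := FreeGroup (Fin 3)

def S0 : Set F := {FreeGroup.of 0, FreeGroup.of 1, FreeGroup.of 2}

theorem S0_W (v : F) : ∃ n, W S0 v n := by
  apply W_of_closure
  have : Set.range (FreeGroup.of : Fin 3 → F) ⊆ S0 := by
    rintro _ ⟨i, rfl⟩
    fin_cases i <;> simp [S0]
  exact Subgroup.closure_mono this (by rw [FreeGroup.closure_range_of]; trivial)

noncomputable def eta0 : F →* Lam := FreeGroup.lift ![T _ _, dl 0 a0, dl 0 b0]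

noncomputable def eta (P n : ℕ) (k : ℤ) : F →* E P n := FreeGroup.lift ![tE P n, aE P n, bE P n k]

theorem eta_fst (P n : ℕ) (k : ℤ) (v : F) : (eta P n k v).1 = eta0 v := by
  have : (MonoidHom.fst _ _).comp (eta P n k) = eta0 := by
    apply FreeGroup.ext_hom
    intro i
    fin_cases i <;> simp [eta, eta0, tE, aE, bE]
  exact DFunLike.congr_fun this v

theorem eta_W {P n : ℕ} {k : ℤ} {v : F} {m : ℕ} (h : W S0 v m) :
    W ({tE P n, aE P n, bE P n k} : Set (E P n)) (eta P n k v) m := by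
  have := h.map (eta P n k)
  rwa [S0, Set.image_insert_eq, Set.image_pair, eta, FreeGroup.lift_apply_of,
    FreeGroup.lift_apply_of, FreeGroup.lift_apply_of] at this

theorem eta_c (P n : ℕ) (k : ℤ) (v : F) (h : eta0 v = 1) : (eta P n k v).2.c = 0 := by
  obtain ⟨m, hm⟩ := S0_W v
  obtain ⟨d, -, h2⟩ := W_decomp (eta_W (P := P) (n := n) (k := k) hm)
  have := NJ_c h2
  rw [tE_zpow] at this
  simp only [Prod.fst_mul, Prod.snd_mul, mul_c, eta_fst, h, one_c] at this
  omega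

structure NS where
  R : Subgroup F
  normal : R.Normal
  le : R ≤ eta0.ker
  fin : ((QuotientGroup.mk' R) '' (eta0.ker : Set F)).Finite

instance (X : NS) : X.R.Normal := X.normal

theorem image_lift {H : Type} [Group H] (R : Subgroup F) [R.Normal] (φ : F →* H) (h : R ≤ φ.ker)
    (S : Set F) : QuotientGroup.lift R φ h '' (QuotientGroup.mk' R '' S) = φ '' S := by
  rw [Set.image_image]; rfl

def Good (X : NS) (S : Finset F) (D ρ0 : ℕ) (Y : NS) (ρ1 : ℕ) : Prop :=
  Y.R ≤ X.R ∧ ρ0 ≤ ρ1 ∧ (∀ v, W S0 v ρ0 → v ∈ X.R → v ∈ Y.R) ∧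
    (Subgroup.closure (QuotientGroup.mk' X.R '' (S : Set F)) = ⊤ →
      ∀ (R : Subgroup F) [R.Normal], R ≤ Y.R → (∀ v, W S0 v ρ1 → v ∈ Y.R → v ∈ R) →
        ∃ ρ, Pocket (QuotientGroup.mk' R '' (S : Set F)) D ρ)

theorem step (X : NS) (S : Finset F) (D ρ0 : ℕ) : ∃ Y : NS × ℕ, Good X S D ρ0 Y.1 Y.2 := by
  by_cases hg : Subgroup.closure (QuotientGroup.mk' X.R '' (S : Set F)) = ⊤
  swap
  · exact ⟨(X, ρ0), le_rfl, le_rfl, fun _ _ h => h, fun h => absurd h hg⟩
  obtain ⟨m, hm⟩ := W_finite_bound (S := S0) S.finite_toSet (fun g _ => S0_W g)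
  obtain ⟨C, hC⟩ := W_finite_bound (S := QuotientGroup.mk' X.R '' (S : Set F))
    (X.fin.union ((show S0.Finite by simp [S0]).image (QuotientGroup.mk' X.R)))
    (fun g _ => W_of_closure (by rw [hg]; trivial))
  obtain ⟨l, p0, hl, h1⟩ := pocketE m C (D + C)
  obtain ⟨M, hM⟩ : ∃ M, M = ρ0 + C * m + 1 := ⟨_, rfl⟩
  obtain ⟨P0, h2⟩ := h1 (p0 + M + 1) (by omega)
  obtain ⟨p, hp⟩ : ∃ p, p = p0 + M + 1 := ⟨_, rfl⟩
  rw [← hp] at h2
  obtain ⟨P, hP⟩ : ∃ P, P = P0 + 2 * p + 2 * M + 1 := ⟨_, rfl⟩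
  have h3 := h2 P (by omega)
  have short : ∀ v, W S0 v M → eta0 v = 1 → eta P (2 * l) (2 * p) v = 1 := fun v h1 h2 =>
    short_trivial (by omega) (by omega) (eta_W h1) (by rw [eta_fst, h2])
  have gen : ∀ s ∈ S0, W (eta P (2 * l) (2 * p) '' S) (eta P (2 * l) (2 * p) s) C := by
    intro s hs
    obtain ⟨v, a1, a2⟩ := (hC _ (Set.mem_union_right _ (Set.mem_image_of_mem _ hs))).lift _
    have a3 : v⁻¹ * s ∈ X.R := QuotientGroup.eq.1 a1
    have a4 := short _ (((a2.trans hm).inv.mul (W.letter (Or.inl hs))).mono (by omega)) (X.le a3)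
    rw [map_mul, map_inv, inv_mul_eq_one] at a4
    rw [← a4]
    exact a2.map _
  obtain ⟨ρ, h4⟩ := h3 (eta P (2 * l) (2 * p) '' S) (S.finite_toSet.image _)
    (by rintro _ ⟨s, hs, rfl⟩; exact eta_W (hm s hs))
    (by simpa [eta] using gen (FreeGroup.of 0) (by simp [S0]))
    (by simpa [eta] using gen (FreeGroup.of 1) (by simp [S0]))
    (by simpa [eta] using gen (FreeGroup.of 2) (by simp [S0]))
  let R1 : Subgroup F := X.R ⊓ (eta P (2 * l) (2 * p)).ker
  have nR : R1.Normal := inferInstance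
  have l1 : R1 ≤ (QuotientGroup.mk' X.R).ker := by rw [QuotientGroup.ker_mk']; exact inf_le_left
  have l2 : R1 ≤ (eta P (2 * l) (2 * p)).ker := inf_le_right
  have fin : ((QuotientGroup.mk' R1) '' (eta0.ker : Set F)).Finite := by
    have : NeZero P := ⟨by omega⟩
    have : NeZero (2 * l) := ⟨by omega⟩
    refine Set.Finite.of_finite_image (f := fun z => (QuotientGroup.lift R1 _ l1 z,
      QuotientGroup.lift R1 _ l2 z)) ((X.fin.prod (Set.finite_range
        (fun h : ZMod P → DihedralGroup (2 * l) => ((1, ⟨h, 0⟩) : E P (2 * l))))).subset ?_) ?_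
    · rintro _ ⟨_, ⟨v, hv, rfl⟩, rfl⟩
      refine ⟨⟨v, hv, rfl⟩, (eta P (2 * l) (2 * p) v).2.h, ?_⟩
      change _ = eta P (2 * l) (2 * p) v
      ext1
      · rw [eta_fst]; exact hv.symm
      · ext1
        · rfl
        · exact (eta_c _ _ _ v hv).symm
    · rintro _ ⟨v, -, rfl⟩ _ ⟨w, -, rfl⟩ h
      obtain ⟨e1, e2⟩ := Prod.mk.inj h
      refine QuotientGroup.eq.2 ⟨QuotientGroup.eq.1 e1, ?_⟩
      change eta P (2 * l) (2 * p) v = eta P (2 * l) (2 * p) w at e2
      change eta P (2 * l) (2 * p) (v⁻¹ * w) = 1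
      rw [map_mul, map_inv, e2, inv_mul_cancel]
  have h5 : Pocket (QuotientGroup.mk' R1 '' (S : Set F)) D (ρ + C) := by
    refine Pocket.of_ker (QuotientGroup.lift R1 _ l2) ?_ (by rw [image_lift]; exact h4)
    intro z hz
    obtain ⟨v, rfl⟩ := QuotientGroup.mk'_surjective R1 z
    change eta P (2 * l) (2 * p) v = 1 at hz
    have a0 : eta0 v = 1 := by rw [← eta_fst P (2 * l) (2 * p), hz]; rfl
    obtain ⟨v', a1, a2⟩ := (hC _ (Set.mem_union_left _ (Set.mem_image_of_mem _ a0))).lift _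
    have a3 : v'⁻¹ * v ∈ X.R := QuotientGroup.eq.1 a1
    have a4 : eta0 v' = 1 := by
      have := X.le a3
      rwa [MonoidHom.mem_ker, map_mul, a0, mul_one, map_inv, inv_eq_one] at this
    have a5 := short _ ((a2.trans hm).mono (by omega)) a4
    have a6 : QuotientGroup.mk' R1 v' = QuotientGroup.mk' R1 v := by
      refine QuotientGroup.eq.2 ⟨a3, ?_⟩
      change eta P (2 * l) (2 * p) (v'⁻¹ * v) = 1
      rw [map_mul, map_inv, a5, hz]; simp
    rw [← a6]
    exact a2.map _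
  refine ⟨(⟨R1, nR, inf_le_left.trans X.le, fin⟩, ρ0 + (2 * (ρ + C) + 2) * m), inf_le_left,
    by simp, fun v h1 h2 => ⟨h2, short v (h1.mono (by omega)) (X.le h2)⟩, ?_⟩
  intro _ R _ hR1 hR2
  have l3 : R ≤ (QuotientGroup.mk' R1).ker := by rw [QuotientGroup.ker_mk']; exact hR1
  refine ⟨_, Pocket.of_inj (QuotientGroup.lift R _ l3) ?_ (by rw [image_lift]; exact h5)⟩
  intro z h6 h7
  obtain ⟨v, rfl, a2⟩ := h6.lift _
  exact (QuotientGroup.eq_one_iff v).2 (hR2 v ((a2.trans hm).mono (by simp))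
    ((QuotientGroup.eq_one_iff v).1 h7))

theorem exists_group : ∃ (R : Subgroup F) (_ : R.Normal), R ≤ eta0.ker ∧
    ∀ S : Finset (F ⧸ R), Subgroup.closure (S : Set (F ⧸ R)) = ⊤ →
      ∀ D, ∃ ρ, Pocket (S : Set (F ⧸ R)) D ρ := by
  classical
  obtain ⟨e, he⟩ := exists_surjective_nat (Finset F × ℕ)
  choose nx hnx using step
  let X0 : NS := ⟨eta0.ker, inferInstance, le_rfl, (Set.finite_singleton 1).subset (by
    rintro _ ⟨v, hv, rfl⟩
    exact (QuotientGroup.eq_one_iff v).2 hv)⟩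
  let st : ℕ → NS × ℕ := fun n => Nat.rec (X0, 0) (fun n x => nx x.1 (e n).1 (e n).2 x.2) n
  have hst : ∀ n, Good (st n).1 (e n).1 (e n).2 (st n).2 (st (n + 1)).1 (st (n + 1)).2 :=
    fun n => hnx _ _ _ _
  have anti : Antitone (fun n => (st n).1.R) := antitone_nat_of_succ_le (fun n => (hst n).1)
  have mono : Monotone (fun n => (st n).2) := monotone_nat_of_le_succ (fun n => (hst n).2.1)
  have agree : ∀ n v, W S0 v (st n).2 → v ∈ (st n).1.R → v ∈ ⨅ j, (st j).1.R := by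
    intro n v h1 h2
    rw [Subgroup.mem_iInf]
    intro j
    rcases le_total j n with h | h
    · exact anti h h2
    · induction h with
      | refl => exact h2
      | step h ih => exact (hst _).2.2.1 v (h1.mono (mono h)) ih
  have nm : (⨅ j, (st j).1.R).Normal := Subgroup.normal_iInf_normal (fun j => (st j).1.normal)
  refine ⟨⨅ j, (st j).1.R, nm, (iInf_le _ 0).trans (st 0).1.le, ?_⟩
  intro S hS D
  have sj := QuotientGroup.mk'_surjective (⨅ j, (st j).1.R)
  have e1 : QuotientGroup.mk' (⨅ j, (st j).1.R) '' (S.image (Function.surjInv sj) : Finset F) =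
      (S : Set _) := by
    rw [Finset.coe_image, Set.image_image]
    simp only [Function.surjInv_eq sj, Set.image_id']
  obtain ⟨n, hn⟩ := he (S.image (Function.surjInv sj), D)
  have h1 := (hst n).2.2.2
  rw [hn] at h1
  rw [← e1]
  refine h1 ?_ _ (iInf_le _ (n + 1)) (agree (n + 1))
  have l3 : (⨅ j, (st j).1.R) ≤ (QuotientGroup.mk' (st n).1.R).ker := by
    rw [QuotientGroup.ker_mk']; exact iInf_le _ n
  rw [← image_lift _ _ l3, e1, ← MonoidHom.map_closure, hS, ← MonoidHom.range_eq_map,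
    MonoidHom.range_eq_top]
  intro z
  obtain ⟨v, rfl⟩ := QuotientGroup.mk'_surjective _ z
  exact ⟨QuotientGroup.mk' _ v, rfl⟩

theorem infinite_quot (R : Subgroup F) [R.Normal] (h : R ≤ eta0.ker) : Infinite (F ⧸ R) := by
  refine Infinite.of_injective (fun i : ℤ => QuotientGroup.mk' R (FreeGroup.of 0 ^ i)) ?_
  intro i j hij
  have := congrArg (fun z => (QuotientGroup.lift R eta0 h z).c) hij
  change (eta0 _).c = (eta0 _).c at this
  rw [map_zpow, map_zpow, eta0, FreeGroup.lift_apply_of] at this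
  change (T ℤ A2 ^ i).c = (T ℤ A2 ^ j).c at this
  rwa [T_zpow, T_zpow] at this

end Pool.Agent.H.MP_ed39a4_al
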